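import Pool.Agent.Work.MP_678620_nt.U.S

/-! Tuples of sums of two squares: exceptional sets and local counts to any accuracy. -/

set_option autoImplicit false
open Finset Filter Topology Real

namespace Pool.Agent.Work.MP_678620_nt.TA

open Classical

/-- the exponent of the local conditions -/
noncomputable def alp (A X : ℕ) : ℕ := ⌈2 * (A + 1) * log (log X)⌉₊ + 3

lemma one_sub_dJ (J : Finset ℤ) {p α : ℕ} (hp : p.Prime) (hα : α ≠ 0) :
    1 - dn (p ^ α) (fun a => ∀ c ∈ J, ¬ (p : ℤ) ∣ a + c) ≤ J.card * (p : ℝ)⁻¹ := by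
  have hM := pow_ne_zero α hp.ne_zero
  have e := dn_ex (p ^ α) J fun c a => (p : ℤ) ∣ a + c
  rw [sum_congr rfl fun c _ => dn_dvd hM (dvd_pow_self p hα) c, sum_const, nsmul_eq_mul] at e
  rw [← dn_not hM]
  exact (dn_congr fun a => by simp).le.trans e

/-- events that force divisibility by `p` at shifts distinct modulo `p` are disjoint -/
lemma dn_disj {M p : ℕ} (J : Finset ℤ) (P : ℤ → Prop) (hP : ∀ a, P a → (p : ℤ) ∣ a)
    (hJ : ∀ c ∈ J, ∀ c' ∈ J, (p : ℤ) ∣ c - c' → c = c') :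
    dn M (fun a => ∃ c ∈ J, P (a + c)) = ∑ c ∈ J, dn M fun a => P (a + c) := by
  simp only [dn]
  rw [← sum_div, sum_comm]
  congr 1
  refine sum_congr rfl fun a _ => ?_
  by_cases e : ∃ c ∈ J, P (a + c)
  · obtain ⟨c, hc, h⟩ := e
    rw [ind_pos ⟨c, hc, h⟩, sum_eq_single_of_mem c hc fun c' hc' n => ind_neg fun h' =>
      n (hJ c' hc' c hc (by simpa using dvd_sub (hP _ h') (hP _ h))), ind_pos h]
  · rw [ind_neg e, sum_eq_zero fun c hc => ind_neg fun h => e ⟨c, hc, h⟩]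

lemma dJ_eq (J : Finset ℤ) {p α : ℕ} (hp : p.Prime) (hα : α ≠ 0)
    (hJ : ∀ c ∈ J, ∀ c' ∈ J, (p : ℤ) ∣ c - c' → c = c') :
    dn (p ^ α) (fun a => ∀ c ∈ J, ¬ (p : ℤ) ∣ a + c) = 1 - J.card * (p : ℝ)⁻¹ := by
  have hM := pow_ne_zero α hp.ne_zero
  have e := dn_disj (M := p ^ α) J (fun a => (p : ℤ) ∣ a) (fun _ h => h) hJ
  rw [sum_congr rfl fun c _ => dn_dvd hM (dvd_pow_self p hα) c, sum_const, nsmul_eq_mul] at e
  rw [← e, ← dn_not hM]
  exact dn_congr fun a => by simp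

theorem bad_countV (A : ℕ) :
    ∀ᶠ X : ℕ in atTop, cu X (Bad (zz X) (YY X) (alp A X)) ≤ X / log X ^ A := by
  filter_upwards [sum_inv_le (a := 24 / 25) (by norm_num), tll.eventually_ge_atTop 72,
    tl.eventually_ge_atTop 12, (trp (a := 24 / 25) (by norm_num)).eventually_ge_atTop 1,
    ev_le (4 * (A + 9)) 1 (show (0 : ℝ) < 1 / 50 by norm_num),
    ev_le (A + 1) 1 (show (0 : ℝ) < 24 / 25 by norm_num)] with X h1 h2 h3 h4 h5 h6
  have l0 : 0 < log X := lt_of_lt_of_le (by norm_num) h3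
  rw [rpow_zero, pow_one, mul_one] at h5 h6
  have z0 : 0 < zz X := exp_pos _
  have e6 := exp_neg_ll l0 (A + 1)
  have X0 : (0 : ℝ) ≤ 3 * X := by positivity
  have b1 : cu X (fun n => ∃ s : ℕ, (s : ℤ) ∣ n ∧ Smo (zz X) s ∧ YY X < s) ≤
      3 * X * (1 / log X ^ (A + 1)) := by
    refine (cu_ex X ((Icc 1 (3 * X)).filter fun s => Smo (zz X) s ∧ YY X < s) id ?_).trans
      (mul_le_mul_of_nonneg_left ((rankin (by rwa [zz, log_exp]) z0 (exp_pos _) _
        fun s hs => (mem_filter.1 hs).2).trans ?_) X0)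
    · rintro n a b ⟨s, c, d⟩
      refine ⟨s, mem_filter.2 ⟨mem_Icc.2 ⟨?_, ?_⟩, d⟩, c⟩
      · exact Nat.pos_of_ne_zero (by rintro rfl; simp at c; omega)
      · have := Int.le_of_dvd a c
        omega
    · have := h1 (⌊zz X⌋₊ + 1).primesBelow fun p hp => ⟨(Nat.mem_primesBelow.1 hp).2,
        (Nat.le_floor_iff z0.le).1 (Nat.le_of_lt_succ (Nat.mem_primesBelow.1 hp).1)⟩
      have e : log X ^ (49 / 50 : ℝ) / (4 * log X ^ (24 / 25 : ℝ)) = log X ^ (1 / 50 : ℝ) / 4 := by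
        rw [show (49 / 50 : ℝ) = 1 / 50 + 24 / 25 by norm_num, rpow_add l0]
        field_simp
      rw [← e6, log_exp, zz, log_exp, e]
      gcongr
      push_cast
      rw [zz] at this
      linarith
  have b2 : cu X (fun n => ∃ d : ℕ, zz X < d ∧ (d : ℤ) ^ 2 ∣ n) ≤ 3 * X * (2 / log X ^ (A + 1)) := by
    refine (cu_ex X (Ioo ⌊zz X⌋₊ (3 * X + 1)) (· ^ 2) ?_).trans
      (mul_le_mul_of_nonneg_left ?_ X0)
    · rintro n a b ⟨d, c, e⟩
      refine ⟨d, mem_Ioo.2 ⟨(Nat.floor_lt z0.le).2 c, ?_⟩, by exact_mod_cast e⟩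
      have := Int.le_of_dvd a ((dvd_pow_self _ two_ne_zero).trans e)
      omega
    · push_cast
      refine (sum_Ioo_inv_sq_le _ _).trans ?_
      gcongr
      refine le_trans ?_ (Nat.lt_floor_add_one _).le
      rw [← exp_log (pow_pos l0 (A + 1)), log_pow, zz]
      gcongr
      exact_mod_cast h6
  have b3 : cu X (fun n => ∃ d : ℕ, 2 ≤ d ∧ (d : ℤ) ^ (alp A X - 1) ∣ n) ≤
      3 * X * (1 / log X ^ (A + 1)) := by
    refine (cu_ex X (Ioo 1 (3 * X + 1)) (· ^ (alp A X - 1)) ?_).trans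
      (mul_le_mul_of_nonneg_left ?_ X0)
    · rintro n a b ⟨d, c, e⟩
      refine ⟨d, mem_Ioo.2 ⟨c, ?_⟩, by exact_mod_cast e⟩
      have := Int.le_of_dvd a ((dvd_pow_self _ (Nat.succ_ne_zero _)).trans e)
      omega
    · refine (sum_le_sum (g := fun d : ℕ => 1 / log X ^ (A + 1) * ((d : ℝ) ^ 2)⁻¹) fun d hd => ?_).trans ?_
      · have d2 : (2 : ℝ) ≤ d := by exact_mod_cast (mem_Ioo.1 hd).1
        rw [show alp A X - 1 = ⌈2 * (A + 1) * log (log X)⌉₊ + 2 from rfl, Nat.cast_pow, pow_add, mul_inv,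
          one_div]
        gcongr
        refine le_trans ?_ (pow_le_pow_left₀ (by norm_num) d2 _)
        rw [← exp_log (pow_pos l0 (A + 1)), log_pow, ← exp_log (pow_pos two_pos _), log_pow, exp_le_exp]
        have := Nat.le_ceil (2 * (A + 1) * log (log X))
        push_cast
        have : 0 ≤ ((A : ℝ) + 1) * log (log X) := by positivity
        nlinarith [log_two_gt_d9]
      · rw [← mul_sum]
        exact mul_le_of_le_one_right (by positivity) ((sum_Ioo_inv_sq_le _ _).trans (by norm_num))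
  refine (sum_le_sum fun n _ => (ind_or_le _ _).trans (add_le_add_right (ind_or_le _ _) _)).trans ?_
  rw [sum_add_distrib, sum_add_distrib]
  refine (add_le_add b1 (add_le_add b2 b3)).trans ?_
  rw [show 3 * X * (1 / log X ^ (A + 1)) + (3 * X * (2 / log X ^ (A + 1)) + 3 * X * (1 / log X ^ (A + 1)))
    = X / log X ^ A * (12 / log X) by field_simp; ring]
  exact mul_le_of_le_one_right (by positivity) ((div_le_one l0).2 h3)

theorem big_countV (A : ℕ) : ∀ᶠ X : ℕ in atTop,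
    cu X (fun n => (A + 5) * log (log X) < wE (EE X) n) ≤ X / log X ^ A := by
  filter_upwards [sum_inv_le (a := 1 / 4) (by norm_num), tll.eventually_ge_atTop 72,
    tl.eventually_ge_atTop 3] with X h1 h2 h3
  have l0 : 0 < log X := lt_of_lt_of_le (by norm_num) h3
  have l1 : 0 < log (log X) := by linarith
  have hE : ∀ p ∈ EE X, p.Prime ∧ (p : ℝ) ≤ exp (log X ^ (1 / 4 : ℝ)) := fun p hp =>
    ⟨(mem_filter.1 hp).2.1, (Nat.le_floor_iff (exp_pos _).le).1 (mem_Icc.1 (mem_filter.1 hp).1).2⟩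
  refine (cu_ex X ((EE X).powersetCard (⌊(A + 5) * log (log X)⌋₊ + 1)) (fun S => ∏ p ∈ S, p)
    fun n _ _ c => ?_).trans ?_
  · obtain ⟨S, a, b⟩ := exists_subset_card_eq ((Nat.floor_lt (by positivity)).2 c)
    refine ⟨S, mem_powersetCard.2 ⟨a.trans (filter_subset _ _), b⟩, ?_⟩
    push_cast
    refine prod_dvd_of_coprime (fun p hp q hq e => Nat.isCoprime_iff_coprime.2
      ((Nat.coprime_primes (hE p (mem_filter.1 (a hp)).1).1 (hE q (mem_filter.1 (a hq)).1).1).2 e))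
      fun p hp => (mem_filter.1 (a hp)).2
  · have := (esym_le_pow (I := EE X) (ν := fun p : ℕ => (p : ℝ)⁻¹) (fun _ _ => by positivity)
      (⌊(A + 5) * log (log X)⌋₊ + 1)).trans (pow_fact_le (sum_nonneg fun _ _ => by positivity) _)
    simp only [Nat.cast_prod, ← prod_inv_distrib]
    refine (mul_le_mul_of_nonneg_left (this.trans (?_ : _ ≤ 1 / log X ^ (A + 1))) (by positivity)).trans ?_
    · rw [← exp_neg_ll l0]
      have := h1 _ hE
      have := Nat.lt_floor_add_one ((A + 5) * log (log X))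
      gcongr
      push_cast
      linarith
    · rw [show 3 * X * (1 / log X ^ (A + 1)) = X / log X ^ A * (3 / log X) by
        field_simp; ring]
      exact mul_le_of_le_one_right (by positivity) ((div_le_one l0).2 h3)


theorem box_asymV (k A : ℕ) : ∀ᶠ X : ℕ in atTop, ∀ H J : Finset ℤ, H.card = k → J ⊆ H →
    ∀ B : Finset ℕ, (∀ p ∈ B, p.Prime ∧ p % 4 = 1 ∧ (p : ℝ) ≤ zz X) →
    |ct X (fun n => (∀ h ∈ H, AA (zz X) (alp A X) (n + h)) ∧ ∀ p ∈ B, ∀ c ∈ J, ¬ (p : ℤ) ∣ n + c)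
      - X * (PH H (zz X) (alp A X) * ∏ p ∈ B, dn (p ^ alp A X) fun a => ∀ c ∈ J, ¬ (p : ℤ) ∣ a + c)|
      ≤ X / log X ^ A := by
  filter_upwards [sum_inv_le (a := 24 / 25) (by norm_num), tll.eventually_ge_atTop 72,
    tl.eventually_ge_atTop 4, tz.eventually_ge_atTop 2, eventually_gt_atTop 0,
    ev_le (2 * ((6 * (k + 2) + A + 3) * (2 * A + 8))) 2 (show (24 / 25 : ℝ) < 1 by norm_num),
    ev_le (2 * (A + 1)) 1 (show (0 : ℝ) < 1 by norm_num)] with X h1 h2 h3 h4 h5 h6 h7 H J hH hJ B hB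
  subst hH
  set z := zz X with hz
  set α := alp A X with hα
  set l := log (log X) with hl
  have α0 : α ≠ 0 := Nat.succ_ne_zero _
  have hP : ∀ p ∈ PP z ∪ B, p.Prime ∧ (p : ℝ) ≤ z := fun p hp => (mem_union.1 hp).elim
    (fun h => let a := (mem_PP (by linarith)).1 h; ⟨a.1, a.2.2⟩) fun h => ⟨(hB p h).1, (hB p h).2.2⟩
  have hm : ∀ p ∈ PP z ∪ B, max p 1 = p := fun p hp => max_eq_left (hP p hp).1.pos
  have dj : Disjoint (PP z) B := disjoint_left.2 fun p a b => (mem_filter.1 a).2.2 (hB p b).2.1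
  let P : ℕ → ℤ → Prop := fun p a =>
    if p % 4 = 1 then ∀ c ∈ J, ¬ (p : ℤ) ∣ a + c else ∀ h ∈ H, Loc (p ^ α) (a + h)
  have d1 : ∀ p ∈ PP z, dn (max p 1 ^ α) (P p) = den H (p ^ α) := fun p hp => by
    rw [hm p (mem_union_left _ hp)]
    exact dn_congr fun a => by simp only [P, if_neg (mem_filter.1 hp).2.2]
  have d2 : ∀ p ∈ B, dn (max p 1 ^ α) (P p) =
      dn (p ^ α) fun a => ∀ c ∈ J, ¬ (p : ℤ) ∣ a + c := fun p hp => by
    rw [hm p (mem_union_right _ hp)]
    exact dn_congr fun a => by simp only [P, if_pos (hB p hp).2.1]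
  have c0 := H.card.cast_nonneg (α := ℝ)
  have key := box0 (PP z ∪ B) (fun p => max p 1 ^ α) (fun p => by positivity)
    (fun p hp q hq e => by
      rw [hm p hp, hm q hq]
      exact Nat.coprime_pow_primes _ _ (hP p hp).1 (hP q hq).1 e) P
    (fun p hp => by
      rw [hm p hp]
      by_cases e : p % 4 = 1
      · simp only [P, if_pos e]
        exact fun a b d f c hc g => f c hc ((per_dvd (dvd_pow_self p α0)).shift c b a (dvd_sub_comm.1 d) g)
      · simp only [P, if_neg e]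
        exact per_den H _)
    ⌈(6 * (H.card + 2) + A + 1) * l⌉₊ X (Λ := (H.card + 2) * (2 * l)) (Mx := z ^ (α + 1))
    (by
      refine le_trans (sum_le_sum (g := fun p : ℕ => (H.card + 2) * (p : ℝ)⁻¹) fun p hp => ?_) ?_
      · rcases mem_union.1 hp with h | h
        · rw [d1 p h]; exact one_sub_den' H (hP p hp).1 α0
        · rw [d2 p h]
          refine (one_sub_dJ J (hP p hp).1 α0).trans ?_
          have : (J.card : ℝ) ≤ H.card := by exact_mod_cast card_le_card hJ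
          gcongr
          linarith
      · rw [← mul_sum]
        have := h1 _ hP
        gcongr
        linarith)
    (by
      refine (sum_le_card_nsmul _ _ (z ^ α) fun p hp => ?_).trans ?_
      · rw [hm p hp, Nat.cast_pow]
        exact pow_le_pow_left₀ p.cast_nonneg (hP p hp).2 _
      · rw [nsmul_eq_mul, pow_succ']
        gcongr
        refine le_trans ?_ (Nat.floor_le (by linarith : 0 ≤ z))
        exact_mod_cast (card_le_card (t := Icc 1 ⌊z⌋₊) fun p hp => mem_Icc.2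
          ⟨(hP p hp).1.pos, Nat.le_floor (hP p hp).2⟩).trans (by simp))
  rw [prod_union dj, prod_congr rfl d1, prod_congr rfl d2] at key
  have e : (fun y => ∀ i ∈ PP z ∪ B, P i y) = fun n => (∀ h ∈ H, AA z α (n + h)) ∧
      ∀ p ∈ B, ∀ c ∈ J, ¬ (p : ℤ) ∣ n + c := by
    ext n
    rw [forall_mem_union]
    refine and_congr ⟨fun a h hh p hp => ?_, fun a p hp => ?_⟩ (forall₂_congr fun p hp => ?_)
    · have := a p hp
      simp only [P, if_neg (mem_filter.1 hp).2.2] at this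
      exact this h hh
    · simp only [P, if_neg (mem_filter.1 hp).2.2]
      exact fun h hh => a h hh p hp
    · simp only [P, if_pos (hB p hp).2.1]
  rw [e] at key
  refine key.trans ?_
  set j := ⌈(6 * (H.card + 2) + A + 1) * l⌉₊ + 1 with hj
  have j1 : (6 * (H.card + 2) + A + 1) * l ≤ j := by
    rw [hj]; push_cast; linarith [Nat.le_ceil ((6 * (H.card + 2) + A + 1) * l)]
  have j2 : (j : ℝ) ≤ (6 * (H.card + 2) + A + 3) * l := by
    have := Nat.ceil_lt_add_one (show 0 ≤ (6 * ((H.card : ℝ) + 2) + A + 1) * l by positivity)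
    rw [hj]; push_cast; linarith
  have a2 : ((α + 2 : ℕ) : ℝ) ≤ (2 * A + 8) * l := by
    have := Nat.ceil_lt_add_one (show 0 ≤ 2 * (A + 1) * l by positivity)
    rw [hα, alp]; push_cast; linarith
  have l0 : 0 < log X := lt_of_lt_of_le (by norm_num) h3
  have X0 : (0 : ℝ) < X := by exact_mod_cast h5
  have b1 : ((H.card + 2) * (2 * l)) ^ j / j.factorial ≤ 1 / log X ^ (A + 1) := by
    refine (pow_fact_le (by positivity) j).trans ?_
    rw [← exp_neg_ll l0]
    gcongr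
    push_cast
    linarith
  have b2 : (1 + z ^ (α + 1)) ^ j ≤ X / log X ^ A / 2 := by
    have : 1 + z ^ (α + 1) ≤ z ^ (α + 2) := by
      rw [pow_succ z (α + 1)]
      nlinarith [one_le_pow₀ (n := α + 1) (by linarith : 1 ≤ z)]
    refine (pow_le_pow_left₀ (by positivity) this j).trans ?_
    rw [div_div, le_div_iff₀ (by positivity), ← log_le_log_iff (by positivity) X0,
      log_mul (by positivity) (by positivity), log_mul (by positivity) (by positivity),
      log_pow, log_pow, log_pow, hz, zz, log_exp]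
    rw [rpow_one] at h6 h7
    rw [rpow_zero] at h7
    have := log_two_lt_d9
    have : (j : ℝ) * (((α + 2 : ℕ) : ℝ) * log X ^ (24 / 25 : ℝ)) ≤
      ((6 * (H.card + 2) + A + 3) * l) * ((2 * A + 8) * l * log X ^ (24 / 25 : ℝ)) := by gcongr
    push_cast at this ⊢
    nlinarith
  have b3 : 2 * X * (1 / log X ^ (A + 1)) ≤ X / log X ^ A / 2 := by
    rw [div_div, mul_one_div, div_le_div_iff₀ (by positivity) (by positivity), pow_succ _ A]
    nlinarith [mul_pos X0 (pow_pos l0 A)]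
  have : 2 * X * (((H.card + 2) * (2 * l)) ^ j / j.factorial) ≤ 2 * X * (1 / log X ^ (A + 1)) := by
    gcongr
  linarith

theorem small_countV (k A j : ℕ) : ∀ᶠ X : ℕ in atTop, ∀ H J : Finset ℤ, H.card = k → J ⊆ H →
    (∀ p ∈ EE X, ∀ c ∈ J, ∀ c' ∈ J, (p : ℤ) ∣ c - c' → c = c') →
    ct X (fun n => (∀ h ∈ H, AA (zz X) (alp A X) (n + h)) ∧ ∀ c ∈ J, wE (EE X) (n + c) < j) ≤
      10 ^ (j * J.card) * (X * PH H (zz X) (alp A X) * exp (-(9 / 10 * LL X)) ^ J.card +
        X / log X ^ A) := by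
  filter_upwards [box_asymV k A, EE_mem] with X h' hE H J hH hJ hd
  have h := h' H J hH hJ
  let w : Finset ℕ → ℝ := fun B => (9 / 10) ^ B.card * ∏ _p ∈ EE X \ B, (1 / 10 : ℝ)
  have w0 : ∀ B, 0 ≤ w B := fun B => by positivity
  have e : ∀ f : ℕ → ℝ, ∑ B ∈ (EE X).powerset, w B * ∏ p ∈ B, f p
      = ∏ p ∈ EE X, (9 / 10 * f p + 1 / 10) := fun f => by
    rw [prod_add]
    refine sum_congr rfl fun B _ => ?_
    rw [prod_mul_distrib, prod_const]
    ring
  have pt : ∀ (Q : Prop) (n : ℤ), ind (Q ∧ ∀ c ∈ J, wE (EE X) (n + c) < j) ≤ 10 ^ (j * J.card) *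
      ∑ B ∈ (EE X).powerset, w B * ind (Q ∧ ∀ p ∈ B, ∀ c ∈ J, ¬ (p : ℤ) ∣ n + c) := by
    intro Q n
    by_cases a : Q ∧ ∀ c ∈ J, wE (EE X) (n + c) < j
    swap
    · rw [ind_neg a]
      exact mul_nonneg (by positivity) (sum_nonneg fun _ _ => mul_nonneg (w0 _) (ind_nonneg _))
    have : ∀ B : Finset ℕ, ind (Q ∧ ∀ p ∈ B, ∀ c ∈ J, ¬ (p : ℤ) ∣ n + c) =
        ∏ p ∈ B, ind (¬ ∃ c ∈ J, (p : ℤ) ∣ n + c) := by
      intro B
      by_cases b : ∀ p ∈ B, ∀ c ∈ J, ¬ (p : ℤ) ∣ n + c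
      · rw [ind_pos ⟨a.1, b⟩, prod_eq_one fun p hp => ind_pos fun ⟨c, hc, d⟩ => b p hp c hc d]
      · rw [ind_neg fun c => b c.2]
        push Not at b
        obtain ⟨p, hp, b⟩ := b
        rw [prod_eq_zero hp (ind_neg (not_not.2 b))]
    simp only [this]
    rw [e, ind_pos a, prod_congr rfl
      (g := fun p : ℕ => if ∃ c ∈ J, (p : ℤ) ∣ n + c then (1 / 10 : ℝ) else 1)
      fun p _ => by
        split_ifs with b
        · rw [ind_neg (not_not.2 b)]; norm_num
        · rw [ind_pos b]; norm_num, prod_ite, prod_const_one, mul_one,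
      prod_const, one_div, inv_pow, ← div_eq_mul_inv, one_le_div (by positivity)]
    refine pow_le_pow_right₀ (by norm_num) ?_
    refine (card_le_card (t := J.biUnion fun c => (EE X).filter fun p : ℕ => (p : ℤ) ∣ n + c)
      fun p hp => ?_).trans (card_biUnion_le.trans ?_)
    · obtain ⟨a1, c, hc, d⟩ := mem_filter.1 hp
      exact mem_biUnion.2 ⟨c, hc, mem_filter.2 ⟨a1, d⟩⟩
    · rw [mul_comm]
      exact sum_le_card_nsmul _ _ _ fun c hc => (a.2 c hc).le
  refine (sum_le_sum fun n _ => pt _ _).trans ?_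
  rw [← mul_sum, sum_comm]
  gcongr
  simp only [← mul_sum]
  refine (sum_le_sum fun B hB => mul_le_mul_of_nonneg_left (sub_le_iff_le_add'.1 (abs_le.1
    (h B fun p hp => hE p (mem_powerset.1 hB hp))).2) (w0 B)).trans ?_
  have e1 := e fun _ => 1
  have e2 := e fun p => dn (p ^ alp A X) fun a => ∀ c ∈ J, ¬ (p : ℤ) ∣ a + c
  simp only [prod_const_one, mul_one] at e1
  norm_num at e1
  simp only [mul_add, sum_add_distrib]
  rw [← sum_mul, e1, one_mul, sum_congr rfl (g := fun B => X * PH H (zz X) (alp A X) *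
    (w B * ∏ p ∈ B, dn (p ^ alp A X) fun a => ∀ c ∈ J, ¬ (p : ℤ) ∣ a + c)) fun B _ => by ring,
    ← mul_sum, e2, ← exp_nat_mul, LL, mul_sum, ← sum_neg_distrib, mul_sum, exp_sum]
  have := PH_nonneg H (zz X) (alp A X)
  gcongr with p hp
  · intro p hp
    have := dn_nonneg (p ^ alp A X) fun a => ∀ c ∈ J, ¬ (p : ℤ) ∣ a + c
    linarith
  · rw [dJ_eq J (α := alp A X) (hE p hp).1 (Nat.succ_ne_zero _) (hd p hp)]
    linarith [add_one_le_exp (J.card * -(9 / 10 * (p : ℝ)⁻¹))]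

end Pool.Agent.Work.MP_678620_nt.TA
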