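import Pool.Agent.Work.MP_678620_nt.V.C
import Pool.Agent.Work.MP_678620_nt.TAFin

/-! Tuples of sums of two squares: averaging over the shifts by duality. -/

set_option autoImplicit false
open Finset Filter Topology Real

namespace Pool.Agent.Work.MP_678620_nt.TA

open Classical

lemma dual_cs (s I : Finset ℤ) (G D : ℤ → ℝ) {g a γ b : ℝ} (γ0 : 0 ≤ γ) (b0 : 0 ≤ b)
    (hG : ∀ n ∈ s, |G n| ≤ g) (hd : ∀ t ∈ I, ∑ n ∈ s, D (n + t) ^ 2 ≤ a)
    (ho : ∀ t ∈ I, ∀ t' ∈ I, t ≠ t' → |∑ n ∈ s, D (n + t) * D (n + t')| ≤ γ)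
    (hb : s.card * (I.card * a + I.card ^ 2 * γ) ≤ b ^ 2) (g0 : 0 ≤ g) :
    ∑ t ∈ I, |∑ n ∈ s, G n * D (n + t)| ≤ g * b := by
  let c : ℤ → ℝ := fun t => if 0 ≤ ∑ n ∈ s, G n * D (n + t) then 1 else -1
  have c1 : ∀ t, |c t| = 1 := fun t => by simp only [c]; split_ifs <;> simp
  have e : ∑ t ∈ I, |∑ n ∈ s, G n * D (n + t)| = ∑ n ∈ s, G n * ∑ t ∈ I, c t * D (n + t) := by
    simp only [mul_sum]
    rw [sum_comm]
    refine sum_congr rfl fun t _ => ?_
    rw [sum_congr rfl (f := fun n => G n * (c t * D (n + t)))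
      (g := fun n => c t * (G n * D (n + t))) fun n _ => by ring, ← mul_sum]
    simp only [c]
    split_ifs with h
    · rw [abs_of_nonneg h, one_mul]
    · rw [abs_of_neg (not_le.1 h), neg_one_mul]
  have e1 : ∑ n ∈ s, G n ^ 2 ≤ s.card * g ^ 2 := by
    rw [← nsmul_eq_mul]
    exact sum_le_card_nsmul _ _ _ fun n hn => sq_le_sq' (abs_le.1 (hG n hn)).1 (abs_le.1 (hG n hn)).2
  have e2 : ∑ n ∈ s, (∑ t ∈ I, c t * D (n + t)) ^ 2 ≤ I.card * a + I.card ^ 2 * γ := by
    simp only [sq, sum_mul_sum]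
    rw [sum_comm, mul_assoc, ← mul_add, ← nsmul_eq_mul]
    refine sum_le_card_nsmul _ _ _ fun t ht => ?_
    rw [sum_comm]
    refine (sum_le_sum (g := fun t' => (if t = t' then a else 0) + γ) fun t' ht' => ?_).trans ?_
    · rw [sum_congr rfl (g := fun n => c t * c t' * (D (n + t) * D (n + t'))) fun n _ => by ring,
        ← mul_sum]
      refine (le_abs_self _).trans ?_
      rw [abs_mul, abs_mul, c1, c1, one_mul, one_mul]
      split_ifs with h
      · subst h
        have := hd t ht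
        simp only [sq] at this
        rw [abs_of_nonneg (sum_nonneg fun n _ => mul_self_nonneg _)]
        linarith
      · rw [zero_add]; exact ho t ht t' ht' h
    · rw [sum_add_distrib, sum_ite_eq, if_pos ht, sum_const, nsmul_eq_mul]
  rw [e]
  refine le_of_sq_le_sq ((sum_mul_sq_le_sq_mul_sq _ _ _).trans ?_) (by positivity)
  refine (mul_le_mul e1 e2 (sum_nonneg fun _ _ => sq_nonneg _) (by positivity)).trans ?_
  rw [mul_pow, mul_right_comm, mul_comm (g ^ 2)]
  exact mul_le_mul_of_nonneg_right hb (sq_nonneg g)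

lemma sum_pi_succ (I : Finset ℤ) (k : ℕ) (f : (Fin (k + 1) → ℤ) → ℝ) :
    ∑ h ∈ Fintype.piFinset fun _ : Fin (k + 1) => I, f h =
      ∑ t ∈ I, ∑ h ∈ Fintype.piFinset fun _ : Fin k => I, f (Fin.cons t h) := by
  rw [← sum_product']
  symm
  refine sum_nbij' (fun x : ℤ × (Fin k → ℤ) => (Fin.cons x.1 x.2 : Fin (k + 1) → ℤ))
    (fun h => (h 0, Fin.tail h)) (fun x hx => ?_)
    (fun h hh => ?_) (fun x _ => by simp) (fun h _ => by simp) fun _ _ => rfl
  · rw [mem_product, Fintype.mem_piFinset] at hx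
    rw [Fintype.mem_piFinset]
    exact fun i => Fin.cases (by simpa using hx.1) (fun j => by simpa using hx.2 j) i
  · rw [Fintype.mem_piFinset] at hh
    rw [mem_product, Fintype.mem_piFinset]
    exact ⟨hh 0, fun j => hh j.succ⟩

lemma tele (s I : Finset ℤ) (F M : ℤ → ℝ) {R β : ℝ} (R1 : 1 ≤ R) (β0 : 0 ≤ β)
    (hF : ∀ n ∈ s, ∀ t ∈ I, |F (n + t)| ≤ R ∧ |M (n + t)| ≤ R)
    (hD : ∀ (G : ℤ → ℝ) (g : ℝ), 0 ≤ g → (∀ n ∈ s, |G n| ≤ g) →
      ∑ t ∈ I, |∑ n ∈ s, G n * (F (n + t) - M (n + t))| ≤ g * (I.card * β)) (k : ℕ) :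
    ∀ (G : ℤ → ℝ) (g : ℝ), 0 ≤ g → (∀ n ∈ s, |G n| ≤ g) →
      ∑ h ∈ Fintype.piFinset fun _ : Fin k => I,
        |∑ n ∈ s, G n * (∏ i, F (n + h i) - ∏ i, M (n + h i))| ≤ k * I.card ^ k * g * R ^ k * β := by
  induction k with
  | zero => intro G g _ _; simp
  | succ k ih =>
    intro G g g0 hG
    have R0 : 0 ≤ R := by linarith
    rw [sum_pi_succ]
    simp only [Fin.prod_univ_succ, Fin.cons_zero, Fin.cons_succ]
    refine (sum_le_sum fun t _ => sum_le_sum (g := fun h : Fin k → ℤ =>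
      |∑ n ∈ s, G n * F (n + t) * (∏ i, F (n + h i) - ∏ i, M (n + h i))| +
      |∑ n ∈ s, G n * (∏ i, M (n + h i)) * (F (n + t) - M (n + t))|) fun h _ => ?_).trans ?_
    · refine le_trans (le_of_eq ?_) (abs_add_le _ _)
      rw [← sum_add_distrib]
      congr 1
      exact sum_congr rfl fun n _ => by ring
    simp only [sum_add_distrib]
    have a : ∑ t ∈ I, ∑ h ∈ Fintype.piFinset fun _ : Fin k => I,
        |∑ n ∈ s, G n * F (n + t) * (∏ i, F (n + h i) - ∏ i, M (n + h i))| ≤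
        I.card * (k * I.card ^ k * (g * R) * R ^ k * β) := by
      rw [← nsmul_eq_mul]
      refine sum_le_card_nsmul _ _ _ fun t ht => ih (fun n => G n * F (n + t)) _ (by positivity)
        fun n hn => ?_
      rw [abs_mul]
      exact mul_le_mul (hG n hn) (hF n hn t ht).1 (abs_nonneg _) g0
    have b : ∑ t ∈ I, ∑ h ∈ Fintype.piFinset fun _ : Fin k => I,
        |∑ n ∈ s, G n * (∏ i, M (n + h i)) * (F (n + t) - M (n + t))| ≤
        I.card ^ k * (g * R ^ k * (I.card * β)) := by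
      rw [sum_comm]
      refine (sum_le_card_nsmul _ _ (g * R ^ k * (I.card * β)) fun h hh =>
        hD (fun n => G n * ∏ i, M (n + h i)) _ (by positivity) fun n hn => ?_).trans (by simp)
      rw [abs_mul, abs_prod]
      refine mul_le_mul (hG n hn) ((prod_le_prod (g := fun _ => R) (fun _ _ => abs_nonneg _)
        fun i _ => (hF n hn _ (Fintype.mem_piFinset.1 hh i)).2).trans (by simp))
        (prod_nonneg fun _ _ => abs_nonneg _) g0
    have c : (I.card : ℝ) ^ k * (g * R ^ k * (I.card * β)) * 1 ≤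
        I.card ^ k * (g * R ^ k * (I.card * β)) * R := by gcongr
    refine (add_le_add a (b.trans ((mul_one _).ge.trans c))).trans (le_of_eq ?_)
    push_cast
    ring

/-- the admissible numbers of prime factors in the window -/
noncomputable def TW (j A X : ℕ) : Finset ℕ := Icc j ⌊(A + 5) * log (log X)⌋₊

/-- the weight, replaced by its model at the integers with an admissible number of factors -/
noncomputable def MM (j A X : ℕ) (n : ℤ) : ℝ :=
  if wE (EE X) n ∈ TW j A X then Fb (zz X) n else FF (zz X) n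

lemma F_le : ∀ᶠ X : ℕ in atTop, ∀ (α : ℕ) (n : ℤ), 1 ≤ n → n ≤ 3 * X →
    (0 ≤ FF (zz X) n ∧ FF (zz X) n ≤ 2 * log X ∧ (¬ AA (zz X) α n → FF (zz X) n = 0)) ∧
    0 ≤ Fb (zz X) n ∧ Fb (zz X) n ≤ r0 X ∧ (¬ AA (zz X) α n → Fb (zz X) n = 0) := by
  filter_upwards [tl.eventually_ge_atTop 2, eventually_gt_atTop 0] with X l2 h9 α n c d
  have X0 : (0 : ℝ) < X := by exact_mod_cast h9
  refine ⟨?_, Fb_bd (exp_pos _).le α c (by exact_mod_cast d)⟩
  obtain ⟨e1, e2, e3⟩ := FF_bd (zz X) c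
  refine ⟨e1, e2.trans ?_, fun e => e3 fun s => e (s.aa _ _)⟩
  have := log_le_log (show (0 : ℝ) < n by exact_mod_cast c)
    (show (n : ℝ) ≤ 3 * X by exact_mod_cast d)
  rw [log_mul three_ne_zero X0.ne'] at this
  linarith [log_le_sub_one_of_pos three_pos]

lemma ev_pw (C : ℝ) (m : ℕ) : ∀ᶠ X : ℕ in atTop, C * log X ^ m ≤ X := by
  filter_upwards [tnat.eventually
    (((isLittleO_pow_log_id_atTop (n := m)).const_mul_left C).bound one_pos)] with X h
  rw [one_mul, id, norm_of_nonneg X.cast_nonneg] at h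
  exact (le_abs_self _).trans h

theorem off_diag (A : ℕ) : ∃ j : ℕ, ∀ᶠ X : ℕ in atTop, ∀ t t' : ℤ, t ≠ t' → 0 ≤ t → 0 ≤ t' →
    (t : ℝ) ≤ log X ^ A → (t' : ℝ) ≤ log X ^ A →
    |∑ n ∈ Ioc (X : ℤ) (2 * X), (FF (zz X) (n + t) - MM j A X (n + t)) *
      (FF (zz X) (n + t') - MM j A X (n + t'))| ≤ X / log X ^ (A + 3) := by
  obtain ⟨j, hj⟩ := SPTwo_half (A + 5) 4 (by norm_num) (c0 := 1 / 100) (by norm_num)
  refine ⟨j, ?_⟩
  filter_upwards [hj, eok, EE_mem, conv_bound, tl.eventually_ge_atTop 2, tll.eventually_ge_atTop 1,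
    eventually_ge_atTop 2, ev_le (A + 6) 1 (show (0 : ℝ) < 1 by norm_num), ev_pw 16 (2 * A + 9),
    ev_pw 1 A] with X h1 h2 h3 h4 l2 h8 h9 h10 h11 h12 t t' ht t0 t0' ta ta'
  rw [rpow_zero, rpow_one, mul_one, pow_one] at h10
  have l0 : 0 < log X := by linarith
  have X0 : (0 : ℝ) < X := by exact_mod_cast (by omega : 0 < X)
  have tX : t ≤ X := by exact_mod_cast (by linarith : (t : ℝ) ≤ X)
  have tX' : t' ≤ X := by exact_mod_cast (by linarith : (t' : ℝ) ≤ X)
  have X3 : 4 * (X : ℤ) ≤ (X : ℤ) ^ 3 := by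
    have : (2 : ℤ) ≤ X := by exact_mod_cast h9
    nlinarith [mul_le_mul this this two_pos.le (by omega)]
  set d : ℤ → ℂ := fun n => conv (be (zz X)) (gam (zz X) 4 (ww (zz X))) n -
    conv (be (zz X)) (flat (zz X) 4 (ww (zz X))) n with hd
  have bm := fun p hp => be_mul (h3 p hp).1 (h3 p hp).2.1 (h3 p hp).2.2
  have k := fun i i' a b c e => h1 X (Nat.le_self_pow two_ne_zero X) (Nat.le_self_pow two_ne_zero X)
    _ h2 i i' a b c e (t' - t) 0 1 (sub_ne_zero.2 ht.symm) (by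
      have : (0 : ℝ) ≤ t := by exact_mod_cast t0
      have : (0 : ℝ) ≤ t' := by exact_mod_cast t0'
      have := pow_le_pow_right₀ (by linarith : 1 ≤ log X) (show A ≤ A + 5 by omega)
      push_cast
      exact abs_le.2 ⟨by linarith, by linarith⟩) le_rfl
    (by simpa using one_le_pow₀ (by linarith)) d (fun n hn => (h4 4 _ _ (dat _) n hn).2.2)
    (fun p hp n => by
      simp only [hd, conv_mul (dat _).β_supp (fun n hn => (gam_supp (dat _) n hn).1) (h3 p hp).1
        (h3 p hp).2.2 (bm p hp) n, conv_mul (dat _).β_supp (fun n hn => (flat_supp n hn).1)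
        (h3 p hp).1 (h3 p hp).2.2 (bm p hp) n]) _ _ (dat (zz X)) bm
  simp only [Nat.cast_one, Int.modEq_one, and_true] at k
  let D : ℤ → ℂ := fun n => if wE (EE X) n ∈ TW j A X then d n else 0
  have Dn : ∀ n : ℤ, n ≤ (X : ℤ) ^ 3 → ‖D n‖ ≤ log X ^ 3 := fun n hn => by
    simp only [D]
    split_ifs
    · exact (h4 4 _ _ (dat _) n hn).2.2
    · rw [norm_zero]; positivity
  have De : ∀ n : ℤ, 1 ≤ n → ((FF (zz X) n - MM j A X n : ℝ) : ℂ) = D n := fun n hn => by
    simp only [D, MM, hd, FF_cast _ hn, Fb_cast _ hn]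
    split_ifs <;> simp
  have sh := SPTwo_shift (fun m => D m * D (m + (t' - t))) X (2 * X) t
    (B := log X ^ 3 * log X ^ 3) (by positivity) fun m hm => by
      rw [abs_of_nonneg t0] at hm
      rw [norm_mul]
      exact mul_le_mul (Dn _ (by omega)) (Dn _ (by omega)) (norm_nonneg _) (by positivity)
  rw [← map_add_right_Ioc, sum_map] at sh
  simp only [addRightEmbedding_apply, add_add_sub_cancel] at sh
  have c : ((TW j A X).card : ℝ) ≤ log X := by
    have := Nat.floor_le (show 0 ≤ (A + 5) * log (log X) by positivity)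
    have : ((TW j A X).card : ℝ) ≤ ⌊(A + 5) * log (log X)⌋₊ + 1 := by
      rw [TW, Nat.card_Icc]; exact_mod_cast Nat.sub_le _ _
    linarith
  have hT : ∀ i ∈ TW j A X, j ≤ i ∧ (i : ℝ) ≤ (A + 5 : ℕ) * log (log X) := fun i hi =>
    ⟨(mem_Icc.1 hi).1, by
      push_cast; exact (Nat.le_floor_iff (by positivity)).1 (mem_Icc.1 hi).2⟩
  have m : ‖∑ n ∈ Ioc (X : ℤ) (2 * X), D n * D (n + (t' - t))‖ ≤
      log X * (log X * (X / log X ^ (A + 5 + 1))) := by
    rw [sum_congr rfl (g := fun n => ∑ i ∈ TW j A X, ∑ i' ∈ TW j A X,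
      (if wE (EE X) n = i then d n else 0) * (if wE (EE X) (n + (t' - t)) = i' then
        d (n + (t' - t)) else 0)) fun n _ => by rw [← sum_mul_sum, sum_ite_eq, sum_ite_eq],
      sum_comm]
    refine (norm_sum_le_of_le _ (n := fun _ => (TW j A X).card • (X / log X ^ (A + 5 + 1)))
      fun i hi => ?_).trans ?_
    · rw [sum_comm]
      exact (norm_sum_le _ _).trans (sum_le_card_nsmul _ _ _ fun i' hi' =>
        k i i' (hT i hi).1 (hT i' hi').1 (hT i hi).2 (hT i' hi').2)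
    · rw [sum_const, nsmul_eq_mul, nsmul_eq_mul]
      gcongr
  rw [← norm_eq_abs, ← Complex.norm_real, Complex.ofReal_sum, sum_congr rfl
    (g := fun n => D (n + t) * D (n + t')) fun n hn => by
      have := (mem_Ioc.1 hn).1
      rw [Complex.ofReal_mul, De _ (by omega), De _ (by omega)]]
  have e1 : log X * (log X * (X / log X ^ (A + 5 + 1))) ≤ X / log X ^ (A + 3) / 2 := by
    rw [show log X * (log X * (X / log X ^ (A + 5 + 1))) = X / log X ^ (A + 3) / log X by
      field_simp; ring]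
    gcongr
  have e2 : 8 * |(t : ℝ)| * (log X ^ 3 * log X ^ 3) ≤ X / log X ^ (A + 3) / 2 := by
    rw [abs_of_nonneg (by exact_mod_cast t0), div_div, le_div_iff₀ (by positivity)]
    calc _ ≤ 8 * log X ^ A * (log X ^ 3 * log X ^ 3) * (log X ^ (A + 3) * 2) := by gcongr
      _ = 16 * log X ^ (2 * A + 9) := by ring
      _ ≤ X := h11
  have := norm_sub_norm_le (∑ n ∈ Ioc (X : ℤ) (2 * X), D (n + t) * D (n + t'))
    (∑ n ∈ Ioc (X : ℤ) (2 * X), D n * D (n + (t' - t)))
  linarith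

theorem avg_bad (k C A : ℕ) (hA : 6 * k + 2 * C ≤ A) : ∃ j : ℕ, ∀ᶠ X : ℕ in atTop, ∀ L : ℕ,
    log X ^ (6 * k + 2 * C + 9) ≤ L → L ≤ log X ^ A →
    (((Fintype.piFinset fun _ : Fin k => Icc (1 : ℤ) L).filter fun h => (X : ℝ) <
      |∑ n ∈ Ioc (X : ℤ) (2 * X), (∏ i, FF (zz X) (n + h i) - ∏ i, MM j A X (n + h i))|).card : ℝ)
      ≤ L ^ k / log X ^ C := by
  obtain ⟨j, hj⟩ := off_diag A
  refine ⟨j, ?_⟩
  filter_upwards [hj, F_le, r0_bd, tl.eventually_ge_atTop (max 2 (k : ℝ)), eventually_gt_atTop 0,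
    ev_pw 1 A] with X h1 h2 h3 h4 h5 h6 L L1 L2
  have l2 := (le_max_left _ _).trans h4
  have lk := (le_max_right _ _).trans h4
  have l0 : 0 < log X := by linarith
  have l1 : 1 ≤ log X := by linarith
  have X0 : (0 : ℝ) < X := by exact_mod_cast h5
  have LX : (L : ℤ) ≤ X := by exact_mod_cast (by linarith : (L : ℝ) ≤ X)
  have L0 : (0 : ℝ) < L := lt_of_lt_of_le (by positivity) L1
  have cI : ((Icc (1 : ℤ) L).card : ℝ) = L := by simp
  have cs : ((Ioc (X : ℤ) (2 * X)).card : ℝ) = X := by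
    rw [Int.card_Ioc, show 2 * (X : ℤ) - X = X by ring]; simp
  have bd : ∀ n ∈ Ioc (X : ℤ) (2 * X), ∀ t ∈ Icc (1 : ℤ) L,
      (0 ≤ FF (zz X) (n + t) ∧ FF (zz X) (n + t) ≤ log X ^ 3) ∧
      0 ≤ MM j A X (n + t) ∧ MM j A X (n + t) ≤ log X ^ 3 := fun n hn t ht => by
    rw [mem_Ioc] at hn
    rw [mem_Icc] at ht
    obtain ⟨a, b⟩ := h2 0 (n + t) (by omega) (by omega)
    have c : FF (zz X) (n + t) ≤ log X ^ 3 := a.2.1.trans (by nlinarith [mul_le_mul l2 l2 two_pos.le l0.le])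
    refine ⟨⟨a.1, c⟩, ?_⟩
    unfold MM
    split_ifs
    · exact ⟨b.1, b.2.1.trans (h3.2.trans (pow_le_pow_right₀ l1 (by norm_num)))⟩
    · exact ⟨a.1, c⟩
  have key := tele (Ioc (X : ℤ) (2 * X)) (Icc (1 : ℤ) L) (FF (zz X)) (MM j A X) (R := log X ^ 3)
    (β := X / log X ^ (3 * k + C + 1)) (one_le_pow₀ l1) (by positivity)
    (fun n hn t ht => by
      obtain ⟨a, b⟩ := bd n hn t ht
      rw [abs_of_nonneg a.1, abs_of_nonneg b.1]
      exact ⟨a.2, b.2⟩)
    (fun G g g0 hG => dual_cs _ _ G (fun n => FF (zz X) n - MM j A X n) (a := X * (log X ^ 3) ^ 2)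
      (γ := X / log X ^ (A + 3)) (by positivity) (by positivity) hG
      (fun t ht => by
        refine (sum_le_card_nsmul _ _ ((log X ^ 3) ^ 2) fun n hn => ?_).trans
          (by rw [nsmul_eq_mul, cs])
        obtain ⟨a, b⟩ := bd n hn t ht
        exact sq_le_sq' (by linarith [a.1, b.2]) (by linarith [a.2, b.1]))
      (fun t ht t' ht' n => by
        rw [mem_Icc] at ht ht'
        exact h1 t t' n (by omega) (by omega) (le_trans (by exact_mod_cast ht.2) L2)
          (le_trans (by exact_mod_cast ht'.2) L2))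
      (by
        rw [cI, cs]
        have e1 : (L : ℝ) * (X * (log X ^ 3) ^ 2) ≤ L ^ 2 * (X / log X ^ (6 * k + 2 * C + 3)) := by
          rw [sq (L : ℝ), mul_assoc, ← mul_div_assoc]
          gcongr
          rw [le_div_iff₀ (by positivity), mul_comm (L : ℝ), mul_assoc]
          gcongr
          exact le_trans (le_of_eq (by ring)) L1
        have e2 : (X : ℝ) / log X ^ (A + 3) ≤ X / log X ^ (6 * k + 2 * C + 3) := by
          gcongr
        have e3 : 2 * ((X : ℝ) / log X ^ (6 * k + 2 * C + 3)) ≤ X / log X ^ (6 * k + 2 * C + 2) := by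
          rw [pow_succ _ (6 * k + 2 * C + 2), ← div_div, ← mul_div_assoc, div_le_iff₀ l0, mul_comm]
          gcongr
        calc _ ≤ X * (L ^ 2 * (X / log X ^ (6 * k + 2 * C + 3)) +
              L ^ 2 * (X / log X ^ (6 * k + 2 * C + 3))) := by gcongr
          _ = X * L ^ 2 * (2 * (X / log X ^ (6 * k + 2 * C + 3))) := by ring
          _ ≤ X * L ^ 2 * (X / log X ^ (6 * k + 2 * C + 2)) := by gcongr
          _ = _ := by field_simp; ring) g0) k (fun _ => 1) 1 one_pos.le (by simp)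
  simp only [one_mul, mul_one, cI] at key
  refine le_of_mul_le_mul_right ?_ X0
  rw [← nsmul_eq_mul]
  refine (card_nsmul_le_sum _ _ (X : ℝ) fun h hh => le_of_lt (mem_filter.1 hh).2).trans
    (((sum_le_sum_of_subset_of_nonneg (filter_subset _ _) fun _ _ _ => abs_nonneg _).trans
      key).trans ?_)
  calc _ ≤ log X * L ^ k * (log X ^ 3) ^ k * (X / log X ^ (3 * k + C + 1)) := by gcongr
    _ = _ := by field_simp; ring

end Pool.Agent.Work.MP_678620_nt.TA
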