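import Pool.Agent.Work.MP_678620_nt.V.C

/-! Tuples of sums of two squares: the singular series, uniformly in the tuple. -/

set_option autoImplicit false
open Finset Filter Topology Real

namespace Pool.Agent.Work.MP_678620_nt.TA

open Classical

/-- the product of the limiting local densities over the sifting primes -/
noncomputable def Dl (δ : Finset ℤ → ℕ → ℝ) (H : Finset ℤ) (z : ℝ) : ℝ := ∏ p ∈ PP z, δ H p

/-- the singular series -/
noncomputable def SK (δ : Finset ℤ → ℕ → ℝ) (k : ℕ) (H : Finset ℤ) : ℝ :=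
  ∏' q : {p : ℕ // p.Prime ∧ p % 4 ≠ 1}, δ H q.1 / δ {0} q.1 ^ k

lemma prod_sub_le {ι : Type*} (s : Finset ι) (a b : ι → ℝ)
    (h : ∀ i ∈ s, 0 ≤ b i ∧ b i ≤ a i ∧ a i ≤ 1) :
    ∏ i ∈ s, a i - ∏ i ∈ s, b i ≤ ∑ i ∈ s, (a i - b i) := by
  induction s using Finset.induction_on with
  | empty => simp
  | insert j s hj ih =>
    rw [prod_insert hj, prod_insert hj, sum_insert hj]
    have h' := fun i hi => h i (mem_insert_of_mem hi)
    have a1 := ih h'
    obtain ⟨a2, a3, a4⟩ := h j (mem_insert_self _ _)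
    have a5 : ∏ i ∈ s, b i ≤ 1 := prod_le_one (fun i hi => (h' i hi).1)
      fun i hi => (h' i hi).2.1.trans (h' i hi).2.2
    have a6 : ∏ i ∈ s, b i ≤ ∏ i ∈ s, a i := prod_le_prod (fun i hi => (h' i hi).1)
      fun i hi => (h' i hi).2.1
    nlinarith [mul_nonneg (sub_nonneg.2 a4) (sub_nonneg.2 a6),
      mul_nonneg (sub_nonneg.2 a3) (sub_nonneg.2 a5)]

lemma sum_pow_le (z : ℝ) (n : ℕ) : ∑ p ∈ PP z, ((p : ℝ) ^ (n + 2))⁻¹ ≤ (2 ^ n)⁻¹ := by
  refine (sum_le_sum (g := fun p : ℕ => (2 ^ n)⁻¹ * ((p : ℝ) ^ 2)⁻¹) fun p hp => ?_).trans ?_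
  · have : (2 : ℝ) ≤ p := by exact_mod_cast (mem_filter.1 hp).2.1.two_le
    rw [pow_add, mul_inv]
    gcongr
  · rw [← mul_sum]
    refine mul_le_of_le_one_right (by positivity) ((sum_le_sum_of_subset_of_nonneg
      (t := Ioo 1 (⌊z⌋₊ + 1)) (fun p hp => ?_) fun _ _ _ => by positivity).trans
      ((sum_Ioo_inv_sq_le _ _).trans (by norm_num)))
    have a := (mem_filter.1 hp).2.1.two_le
    have b := (mem_Icc.1 (mem_filter.1 hp).1).2
    rw [mem_Ioo]; omega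

lemma two_pow_ge {X : ℕ} (h : 1 ≤ log X) (m : ℕ) {c : ℝ} (hc : m ≤ 69 / 100 * c) :
    ((2 : ℝ) ^ ⌈c * log (log X)⌉₊)⁻¹ ≤ 1 / log X ^ m := by
  have l0 : 0 < log X := by linarith
  rw [one_div]
  refine inv_anti₀ (by positivity) ?_
  rw [← exp_log (pow_pos l0 m), log_pow, ← exp_log (pow_pos two_pos _), log_pow, exp_le_exp]
  have a := Nat.le_ceil (c * log (log X))
  have b := log_nonneg h
  have := mul_le_mul_of_nonneg_right hc b
  have := (⌈c * log (log X)⌉₊).cast_nonneg (α := ℝ)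
  nlinarith [log_two_gt_d9]

lemma gen_facK (k : ℕ) {e : ℝ} (e0 : 0 ≤ e) (e1 : e ≤ 1) (h : k * e ≤ 1 / 2) :
    |(1 - k * e) / (1 - e) ^ k - 1| ≤ 2 * k ^ 2 * e ^ 2 := by
  have a : 1 - k * e ≤ (1 - e) ^ k := by
    have := one_add_mul_le_pow (a := -e) (by linarith) k
    rwa [mul_neg, ← sub_eq_add_neg, ← sub_eq_add_neg] at this
  have b : ∀ j : ℕ, (1 - e) ^ j ≤ 1 - j * e + j ^ 2 * e ^ 2 := fun j => by
    induction j with
    | zero => simp
    | succ j ih =>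
      rw [pow_succ]
      refine (mul_le_mul_of_nonneg_right ih (by linarith)).trans ?_
      have := j.cast_nonneg (α := ℝ)
      push_cast
      nlinarith [sq_nonneg e, mul_nonneg this (sq_nonneg e),
        mul_nonneg (mul_nonneg (sq_nonneg (j : ℝ)) (sq_nonneg e)) e0]
  have b := b k
  generalize (1 - e) ^ k = y at a b
  have y0 : 0 < y := by linarith
  rw [show (1 - k * e) / y - 1 = -((y - (1 - k * e)) / y) by field_simp; ring, abs_neg,
    abs_of_nonneg (div_nonneg (by linarith) y0.le), div_le_iff₀ y0]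
  nlinarith [mul_nonneg (sq_nonneg (k : ℝ)) (sq_nonneg e)]

lemma den_gen (H : Finset ℤ) {p : ℕ} (hp : p.Prime) (h2 : p ≠ 2) (α : ℕ)
    (hH : ∀ c ∈ H, ∀ c' ∈ H, (p : ℤ) ∣ c - c' → c = c') :
    den H (p ^ α) = 1 - H.card * (1 - den {0} (p ^ α)) := by
  have hM := pow_ne_zero α hp.ne_zero
  have e := dn_disj (M := p ^ α) H (fun a => ¬ Loc (p ^ α) a)
    (fun a h => not_not.1 (mt (loc_odd hp h2) h)) hH
  rw [sum_congr rfl fun c _ => (dn_not hM _).trans (by rw [dn_shift hM (per_loc _)]), sum_const,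
    nsmul_eq_mul] at e
  rw [den, den, dn_congr (P := fun a => ∀ h ∈ ({0} : Finset ℤ), _) (Q := Loc (p ^ α)) (by simp),
    ← e, ← dn_not hM]
  exact dn_congr fun a => by simp

lemma eq_of_dvd {c c' : ℤ} {p : ℕ} {z : ℝ} (h : |(c : ℝ) - c'| ≤ z) (hp : z < p)
    (d : (p : ℤ) ∣ c - c') : c = c' := by
  by_contra e
  have := Int.le_of_dvd (abs_pos.2 (sub_ne_zero.2 e)) ((dvd_abs _ _).2 d)
  have : (p : ℝ) ≤ |(c : ℝ) - c'| := by exact_mod_cast this
  linarith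

variable {δ : Finset ℤ → ℕ → ℝ}
  (hδ : ∀ (H : Finset ℤ) (p : ℕ), p.Prime → Tendsto (fun α => den H (p ^ α)) atTop (𝓝 (δ H p)))
include hδ

lemma del_nonneg (H : Finset ℤ) {p : ℕ} (hp : p.Prime) : 0 ≤ δ H p :=
  ge_of_tendsto' (hδ H p hp) fun _ => dn_nonneg _ _

lemma del_zero {p : ℕ} (hp : p.Prime) : 1 / 4 ≤ δ {0} p :=
  ge_of_tendsto (hδ _ _ hp) ((eventually_ge_atTop 2).mono fun _ => den_zero hp)

lemma Dl_nonneg (H : Finset ℤ) (z : ℝ) : 0 ≤ Dl δ H z :=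
  prod_nonneg fun _ hp => del_nonneg hδ H (mem_filter.1 hp).2.1

lemma Dl_pos (z : ℝ) : 0 < Dl δ {0} z :=
  prod_pos fun _ hp => lt_of_lt_of_le (by norm_num) (del_zero hδ (mem_filter.1 hp).2.1)

lemma PH_sub (H : Finset ℤ) (z : ℝ) (n : ℕ) :
    |PH H z (n + 3) - Dl δ H z| ≤ H.card * (2 ^ n)⁻¹ := by
  have k := fun p (hp : p ∈ PP z) => den_lim H (α := n + 1) (mem_filter.1 hp).2.1
    (hδ H p (mem_filter.1 hp).2.1)
  have k0 := fun p (hp : p ∈ PP z) => del_nonneg hδ H (mem_filter.1 hp).2.1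
  rw [PH, Dl, abs_of_nonneg (sub_nonneg.2 (prod_le_prod k0 fun p hp => (k p hp).1))]
  refine (prod_sub_le _ _ _ fun p hp =>
    ⟨k0 p hp, (k p hp).1, den_le_one H (mem_filter.1 hp).2.1 _⟩).trans
    ((sum_le_sum fun p hp => sub_le_iff_le_add'.2 (k p hp).2).trans ?_)
  rw [← mul_sum]
  exact mul_le_mul_of_nonneg_left (sum_pow_le z n) H.card.cast_nonneg

theorem sing_V (k : ℕ) {l : Filter ℕ} (H : ℕ → Finset ℤ) {z : ℕ → ℝ} (hz : Tendsto z l atTop)
    (hH : ∀ᶠ X in l, (H X).card = k ∧ ∀ c ∈ H X, ∀ c' ∈ H X, |(c : ℝ) - c'| ≤ z X) :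
    ∃ P : ℕ → ℝ, Tendsto P l (𝓝 1) ∧
      ∀ᶠ X in l, SK δ k (H X) = Dl δ (H X) (z X) / Dl δ {0} (z X) ^ k * P X := by
  let t : ℕ → {p : ℕ // p.Prime ∧ p % 4 ≠ 1} → ℝ := fun X q => if (q.1 : ℝ) ≤ z X then
    δ (H X) q.1 / δ {0} q.1 ^ k else 1
  let f : ℕ → {p : ℕ // p.Prime ∧ p % 4 ≠ 1} → ℝ := fun X q => if (q.1 : ℝ) ≤ z X then
    0 else δ (H X) q.1 / δ {0} q.1 ^ k - 1
  have sm : Summable fun q : {p : ℕ // p.Prime ∧ p % 4 ≠ 1} =>
      2 * (k : ℝ) ^ 2 * ((q.1 : ℝ) ^ 2)⁻¹ :=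
    ((Real.summable_nat_pow_inv.2 one_lt_two).comp_injective Subtype.val_injective).mul_left _
  have bd : ∀ᶠ X in l, ∀ q, ‖f X q‖ ≤ 2 * (k : ℝ) ^ 2 * ((q.1 : ℝ) ^ 2)⁻¹ := by
    filter_upwards [hH, hz.eventually_ge_atTop 2, hz.eventually_ge_atTop (2 * k)] with X b c c' q
    simp only [f]
    split_ifs with e
    · rw [norm_zero]; positivity
    have e := not_le.1 e
    have q0 : (0 : ℝ) < q.1 := by linarith
    have h2 : q.1 ≠ 2 := fun j => by rw [j] at e; norm_num at e; linarith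
    have k1 : δ (H X) q.1 = 1 - k * (1 - δ {0} q.1) := tendsto_nhds_unique (hδ _ _ q.2.1)
      (((((hδ {0} _ q.2.1).const_sub 1).const_mul (k : ℝ)).const_sub 1).congr fun α => by
        rw [den_gen (H X) q.2.1 h2 α fun a ha a' ha' => eq_of_dvd (b.2 a ha a' ha') e, b.1])
    have k2 : δ {0} q.1 ≤ 1 := le_of_tendsto' (hδ _ _ q.2.1) (den_le_one _ q.2.1)
    have k3 : 1 - δ {0} q.1 ≤ (q.1 : ℝ)⁻¹ := le_of_tendsto ((hδ {0} _ q.2.1).const_sub 1)
      ((eventually_ne_atTop 0).mono fun β j => by simpa using one_sub_den {0} q.2.1 h2 j)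
    have k4 := del_zero hδ q.2.1
    have k5 : (k : ℝ) * (q.1 : ℝ)⁻¹ ≤ 1 / 2 := by
      rw [← div_eq_mul_inv, div_le_iff₀ q0]; linarith
    have := gen_facK k (e := 1 - δ {0} q.1) (by linarith) (by linarith)
      ((mul_le_mul_of_nonneg_left k3 k.cast_nonneg).trans k5)
    rw [sub_sub_cancel] at this
    rw [k1, Real.norm_eq_abs]
    refine this.trans ?_
    rw [← inv_pow]
    gcongr
  have key := tendsto_tprod_one_add_of_dominated_convergence (𝓕 := l) (f := f)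
    (g := fun _ => 0) sm (fun q => tendsto_const_nhds.congr'
      ((hz.eventually_ge_atTop q.1).mono fun X a => (if_pos a).symm)) bd
  simp only [add_zero, tprod_one] at key
  refine ⟨_, key, ?_⟩
  filter_upwards [hz.eventually_ge_atTop 0, bd] with X hX b
  have hp : HasProd (t X) (∏ q ∈ (PP (z X)).subtype _, t X q) :=
    hasProd_prod_of_ne_finset_one fun q hq =>
      if_neg fun e => hq (mem_subtype.2 ((mem_PP hX).2 ⟨q.2.1, q.2.2, e⟩))
  have e : ∏ q ∈ (PP (z X)).subtype _, t X q = Dl δ (H X) (z X) / Dl δ {0} (z X) ^ k := by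
    rw [Dl, Dl, ← prod_pow, ← prod_div_distrib, ← prod_subtype_of_mem (s := PP (z X)) (p := fun p =>
      p.Prime ∧ p % 4 ≠ 1) _ fun p hp => (mem_filter.1 hp).2]
    exact prod_congr rfl fun q hq => if_pos ((mem_PP hX).1 (mem_subtype.1 hq)).2.2
  have m : Multipliable fun q => 1 + f X q :=
    multipliable_one_add_of_summable (Summable.of_nonneg_of_le (fun _ => norm_nonneg _) b sm)
  have := (hp.mul m.hasProd).tprod_eq
  rw [e] at this
  rw [← this]
  refine tprod_congr fun q => ?_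
  simp only [f, t]
  split_ifs <;> ring

end Pool.Agent.Work.MP_678620_nt.TA
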