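import Pool.Agent.Work.MP_678620_nt.V.D
import Pool.Agent.Work.MP_678620_nt.V.E

/-! Tuples of sums of two squares: comparison with the local model. -/

set_option autoImplicit false
open Finset Filter Topology Real

namespace Pool.Agent.Work.MP_678620_nt.TA

open Classical

lemma sandL {l : Filter ℕ} {F G e θ θ' : ℕ → ℝ}
    (h : ∀ᶠ X in l, θ X * (G X - e X) ≤ F X ∧ F X ≤ θ' X * G X) (hθ : Tendsto θ l (𝓝 1))
    (hθ' : Tendsto θ' l (𝓝 1)) (he : Tendsto e l (𝓝 0)) {x : ℝ} :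
    Tendsto F l (𝓝 x) ↔ Tendsto G l (𝓝 x) := by
  constructor
  · intro t
    refine tendsto_of_tendsto_of_tendsto_of_le_of_le' (g := fun X => F X / θ' X)
      (h := fun X => F X / θ X + e X) (div_one x ▸ t.div hθ' one_ne_zero)
      (by simpa using (t.div hθ one_ne_zero).add he) ?_ ?_
    · filter_upwards [h, hθ'.eventually (lt_mem_nhds one_pos)] with X a b
      exact (div_le_iff₀' b).2 a.2
    · filter_upwards [h, hθ.eventually (lt_mem_nhds one_pos)] with X a b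
      exact sub_le_iff_le_add.1 ((le_div_iff₀' b).2 a.1)
  · intro t
    exact tendsto_of_tendsto_of_tendsto_of_le_of_le' (by simpa using hθ.mul (t.sub he))
      (by simpa using hθ'.mul t) (h.mono fun _ a => a.1) (h.mono fun _ a => a.2)

lemma zero_wL {l : Filter ℕ} {e w : ℕ → ℝ} (hw : ∀ᶠ X in l, 0 ≤ w X ∧ w X ≤ 1)
    (he : Tendsto e l (𝓝 0)) : Tendsto (fun X => e X * w X) l (𝓝 0) := by
  refine squeeze_zero_norm' (a := fun X => ‖e X‖) (hw.mono fun X h => ?_) (by simpa using he.norm)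
  rw [norm_mul, norm_eq_abs (w X), abs_of_nonneg h.1]
  exact mul_le_of_le_one_right (norm_nonneg _) h.2

lemma sandW {l : Filter ℕ} {w : ℕ → ℝ} (hw : ∀ᶠ X in l, 0 ≤ w X ∧ w X ≤ 1) {F G e θ θ' : ℕ → ℝ}
    (h : ∀ᶠ X in l, θ X * (G X - e X) ≤ F X ∧ F X ≤ θ' X * G X) (hθ : Tendsto θ l (𝓝 1))
    (hθ' : Tendsto θ' l (𝓝 1)) (he : Tendsto e l (𝓝 0)) {x : ℝ} :
    Tendsto (fun X => F X * w X) l (𝓝 x) ↔ Tendsto (fun X => G X * w X) l (𝓝 x) := by
  refine sandL ?_ hθ hθ' (zero_wL hw he)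
  filter_upwards [h, hw] with X a b
  rw [← sub_mul, ← mul_assoc, ← mul_assoc]
  exact ⟨mul_le_mul_of_nonneg_right a.1 b.1, mul_le_mul_of_nonneg_right a.2 b.1⟩

lemma moveW {l : Filter ℕ} {w : ℕ → ℝ} (hw : ∀ᶠ X in l, 0 ≤ w X ∧ w X ≤ 1) {f g e : ℕ → ℝ} {x : ℝ}
    (t : Tendsto (fun X => f X * w X) l (𝓝 x)) (h : ∀ᶠ X in l, |f X - g X| ≤ e X)
    (he : Tendsto (fun X => e X * w X) l (𝓝 0)) : Tendsto (fun X => g X * w X) l (𝓝 x) := by
  refine t.congr_dist (squeeze_zero' (.of_forall fun _ => dist_nonneg) ?_ he)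
  filter_upwards [h, hw] with X a b
  rw [Real.dist_eq, ← sub_mul, abs_mul, abs_of_nonneg b.1]
  exact mul_le_mul_of_nonneg_right a b.1

theorem FF_ineq (k A : ℕ) : ∀ᶠ X : ℕ in atTop, ∀ H : Finset ℤ, H.card = k →
    (∀ h ∈ H, 2 * |h| ≤ X) → (1 - (1 + log (YY X)) * (log X)⁻¹) ^ k *
      (ct X (fun n => ∀ h ∈ H, S2 (n + h)) * √(log X) ^ k / X - k * (1 / log X ^ A) * √(log X) ^ k) ≤
      (∑ n ∈ Ioc (X : ℤ) (2 * X), ∏ h ∈ H, FF (zz X) (n + h)) / (X * √(log X) ^ k) ∧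
    (∑ n ∈ Ioc (X : ℤ) (2 * X), ∏ h ∈ H, FF (zz X) (n + h)) / (X * √(log X) ^ k) ≤
      (1 + 2 * (log X)⁻¹) ^ k * (ct X (fun n => ∀ h ∈ H, S2 (n + h)) * √(log X) ^ k / X) := by
  filter_upwards [bad_countV A, tl.eventually_ge_atTop 2, tz.eventually_ge_atTop 2,
    eventually_gt_atTop 0, ev_le 2 0 (show (49 / 50 : ℝ) < 1 by norm_num)] with X h1 h3 h4 h5 h6 H hH h2
  subst hH
  rw [pow_zero, mul_one, rpow_one] at h6
  have X0 : (0 : ℝ) < X := by exact_mod_cast h5
  have l0 : 0 < log X := by linarith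
  have lY : log (YY X) = log X ^ (49 / 50 : ℝ) := log_exp _
  obtain ⟨a, b⟩ := sand_sum X H (f := FF (zz X)) (P := S2) (lo := log X - (1 + log (YY X)))
    (hi := log X + 2) (by linarith) (by linarith) h2 h1
    (fun n c d => by
      obtain ⟨e1, e2, e3⟩ := FF_bd (zz X) (n := n) (by omega)
      refine ⟨e1, e2.trans ?_, e3⟩
      have := log_le_log (show (0 : ℝ) < n by exact_mod_cast (by omega : 0 < n))
        (show (n : ℝ) ≤ 3 * X by exact_mod_cast d)
      rw [log_mul three_ne_zero X0.ne'] at this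
      linarith [log_le_sub_one_of_pos three_pos])
    fun n c d e => by
      refine le_trans ?_ (FF_lo h4 (by omega) d e)
      have := log_le_log X0 (show (X : ℝ) ≤ 2 * n by exact_mod_cast c.le)
      rw [log_mul two_ne_zero (by exact_mod_cast (by omega : n ≠ 0))] at this
      linarith [log_two_lt_d9]
  have s : √(log X) ^ H.card * √(log X) ^ H.card = log X ^ H.card := by
    rw [← mul_pow, mul_self_sqrt l0.le]
  have s0 : 0 < √(log X) ^ H.card := by positivity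
  rw [show log X - (1 + log (YY X)) = (1 - (1 + log (YY X)) * (log X)⁻¹) * log X by field_simp,
    mul_pow, ← s] at a
  rw [show log X + 2 = (1 + 2 * (log X)⁻¹) * log X by field_simp, mul_pow, ← s] at b
  rw [le_div_iff₀ (by positivity), div_le_iff₀ (by positivity)]
  exact ⟨le_trans (le_of_eq (by field_simp)) a, b.trans (le_of_eq (by field_simp))⟩

lemma th_zero : Tendsto (fun X : ℕ => (1 + log (YY X)) * (log X)⁻¹) atTop (𝓝 0) := by
  refine (by simpa using tinv.add ((tendsto_rpow_neg_atTop (y := 1 / 50)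
    (by norm_num)).comp tl) : Tendsto (fun X : ℕ => (log X)⁻¹ + log X ^ (-(1 / 50 : ℝ)))
      atTop (𝓝 0)).congr' ?_
  filter_upwards [tl.eventually_gt_atTop 0] with X h
  rw [YY, log_exp, show (49 / 50 : ℝ) = -(1 / 50) + 1 by norm_num, rpow_add_one h.ne']
  field_simp

theorem Fb_ineq (k A : ℕ) : ∀ᶠ X : ℕ in atTop, ∀ H : Finset ℤ, H.card = k →
    (∀ h ∈ H, 2 * |h| ≤ X) → (rho (zz X) (m1 X) / r0 X) ^ k *
      (r0 X ^ k * ct X (fun n => ∀ h ∈ H, AA (zz X) (alp A X) (n + h)) / (X * √(log X) ^ k) -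
        k * (r0 X ^ k * (1 / log X ^ A) / √(log X) ^ k)) ≤
      (∑ n ∈ Ioc (X : ℤ) (2 * X), ∏ h ∈ H, Fb (zz X) (n + h)) / (X * √(log X) ^ k) ∧
    (∑ n ∈ Ioc (X : ℤ) (2 * X), ∏ h ∈ H, Fb (zz X) (n + h)) / (X * √(log X) ^ k) ≤
      1 * (r0 X ^ k * ct X (fun n => ∀ h ∈ H, AA (zz X) (alp A X) (n + h)) /
        (X * √(log X) ^ k)) := by
  filter_upwards [bad_countV A, tl.eventually_gt_atTop 0, tz.eventually_ge_atTop 2,
    eventually_gt_atTop 0, r0_bd] with X h1 l0 h4 h5 h7 H hH h2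
  subst hH
  have h6 : 0 < r0 X := lt_of_lt_of_le (by positivity) h7.1
  have X0 : (0 : ℝ) < X := by exact_mod_cast h5
  have Y0 : 0 < YY X := exp_pos _
  obtain ⟨a, b⟩ := sand_sum X H (f := Fb (zz X)) (P := AA (zz X) (alp A X))
    (lo := rho (zz X) (m1 X)) (hi := r0 X) (rho_nonneg _ _) h6.le h2 h1
    (fun n c d => Fb_bd (by linarith) _ (by omega) (by exact_mod_cast d))
    fun n c d e => Fb_lo h4 (by omega) d e (by
      have := (le_div_iff₀ (by positivity)).1 (Nat.floor_le (show 0 ≤ X / (2 * YY X) by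
        positivity))
      have : (X : ℝ) < 2 * n := by exact_mod_cast c
      rw [m1]
      linarith)
  rw [one_mul, le_div_iff₀ (by positivity), div_le_div_iff_of_pos_right (by positivity)]
  exact ⟨le_trans (le_of_eq (by rw [div_pow]; field_simp)) a, b⟩

lemma er_zero {k A : ℕ} (hA : 3 * k + 1 ≤ A) {f : ℕ → ℝ}
    (hf : ∀ᶠ X : ℕ in atTop, 0 ≤ f X ∧ f X ≤ log X ^ 3) :
    Tendsto (fun X : ℕ => f X ^ k * (1 / log X ^ A)) atTop (𝓝 0) := by
  refine t0 1 ?_
  filter_upwards [hf, tl.eventually_ge_atTop 1] with X h l1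
  have := h.1
  rw [abs_of_nonneg (by positivity)]
  calc _ ≤ (log X ^ 3) ^ k * (1 / log X ^ (3 * k + 1)) := by gcongr; exact h.2
    _ = _ := by field_simp; ring

lemma er_r0 {k A : ℕ} (hA : 3 * k + 1 ≤ A) :
    Tendsto (fun X : ℕ => r0 X ^ k * (1 / log X ^ A) / √(log X) ^ k) atTop (𝓝 0) := by
  refine (er_zero hA (f := fun X => r0 X / √(log X)) ?_).congr fun X => by rw [div_pow]; ring
  filter_upwards [r0_bd, tl.eventually_ge_atTop 1] with X h l1
  have := rho_nonneg (zz X) (3 * X)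
  exact ⟨div_nonneg this (sqrt_nonneg _), (div_le_self this (one_le_sqrt.2 l1)).trans
    (h.2.trans (pow_le_pow_right₀ l1 (by norm_num)))⟩

/-- the saving at integers with few prime factors in the window -/
noncomputable def et (j X : ℕ) : ℝ := 4 * log X ^ (1 / 25 : ℝ) * 10 ^ j * exp (-(9 / 10 * LL X))

lemma et_zero (j : ℕ) : Tendsto (et j) atTop (𝓝 0) := by
  refine squeeze_zero' (.of_forall fun X => by
    have := log_natCast_nonneg X; unfold et; positivity) ?_ (by simpa using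
    (((tendsto_rpow_neg_atTop (y := 59 / 1000) (by norm_num)).comp tl).const_mul (4 * 10 ^ j)))
  filter_upwards [LL_ge, tl.eventually_gt_atTop 0] with X h l0
  have a : exp (-(9 / 10 * LL X)) ≤ log X ^ (-(99 / 1000 : ℝ)) := by
    rw [rpow_def_of_pos l0, exp_le_exp]; linarith
  calc et j X ≤ 4 * log X ^ (1 / 25 : ℝ) * 10 ^ j * log X ^ (-(99 / 1000 : ℝ)) := by
        unfold et; gcongr
    _ = 4 * 10 ^ j * (log X ^ (1 / 25 : ℝ) * log X ^ (-(99 / 1000 : ℝ))) := by ring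
    _ = _ := by rw [← rpow_add l0]; norm_num

theorem MM_Fb (k A j : ℕ) : ∀ᶠ X : ℕ in atTop, ∀ H : Finset ℤ, H.card = k →
    (∀ h ∈ H, 2 * |h| ≤ X) → (∀ p ∈ EE X, ∀ c ∈ H, ∀ c' ∈ H, (p : ℤ) ∣ c - c' → c = c') →
    |∑ n ∈ Ioc (X : ℤ) (2 * X), ∏ h ∈ H, Fb (zz X) (n + h) -
      ∑ n ∈ Ioc (X : ℤ) (2 * X), ∏ h ∈ H, MM j A X (n + h)| ≤
      2 ^ k * (et j X * r0 X ^ k * (X * PH H (zz X) (alp A X))) +
        (2 ^ k * 10 ^ (j * k) + k) * ((log X ^ 3) ^ k * (X / log X ^ A)) := by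
  filter_upwards [small_countV k A j, big_countV A, F_le, r0_bd, tl.eventually_ge_atTop 1,
    tll.eventually_ge_atTop 0, ev_le 4 0 (show (1 / 25 : ℝ) < 1 by norm_num),
    (et_zero j).eventually (eventually_le_nhds one_pos)] with X h1 h2 h3 h4 l1 l2 h5 h6 H hH hX hd
  rw [pow_zero, mul_one, rpow_one] at h5
  have l0 : 0 < log X := by linarith
  have r : 0 < r0 X := lt_of_lt_of_le (by positivity) h4.1
  have u1 : 1 ≤ log X ^ (1 / 25 : ℝ) := one_le_rpow l1 (by norm_num)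
  set R := 4 * log X ^ (1 / 25 : ℝ) * r0 X with hR
  have R1 : r0 X ≤ R := le_mul_of_one_le_left r.le (by linarith)
  have R2 : 2 * log X ≤ R := by
    have : log X = log X ^ (1 / 25 : ℝ) * log X ^ (24 / 25 : ℝ) := by
      rw [← rpow_add l0]; norm_num
    nlinarith [h4.1]
  have R3 : R ≤ log X ^ 3 := (mul_le_mul h5 h4.2 r.le l0.le).trans (le_of_eq (by ring))
  have R0 : 0 ≤ R := r.le.trans R1
  let Q : ℤ → Prop := fun n => ∀ h ∈ H, AA (zz X) (alp A X) (n + h)
  have pt : ∀ n ∈ Ioc (X : ℤ) (2 * X), |∏ h ∈ H, Fb (zz X) (n + h) - ∏ h ∈ H, MM j A X (n + h)| ≤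
      ∑ J ∈ H.powerset.erase ∅, R ^ J.card * r0 X ^ (H \ J).card *
        ind (Q n ∧ ∀ c ∈ J, wE (EE X) (n + c) < j) + (log X ^ 3) ^ k *
        ind (∃ h ∈ H, (A + 5) * log (log X) < wE (EE X) (n + h)) := by
    intro n hn
    have f := fun h hh => h3 (alp A X) (n + h) (by
      have := hX h hh; have := neg_abs_le h; rw [mem_Ioc] at hn; omega) (by
      have := hX h hh; have := le_abs_self h; rw [mem_Ioc] at hn; omega)
    have m : ∀ h ∈ H, 0 ≤ MM j A X (n + h) ∧ MM j A X (n + h) ≤ R ∧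
        (¬ AA (zz X) (alp A X) (n + h) → MM j A X (n + h) = 0) := fun h hh => by
      obtain ⟨a, b⟩ := f h hh
      unfold MM
      split_ifs
      · exact ⟨b.1, b.2.1.trans R1, b.2.2⟩
      · exact ⟨a.1, a.2.1.trans R2, a.2.2⟩
    have s0 : ∀ J ∈ H.powerset.erase ∅, 0 ≤ R ^ J.card * r0 X ^ (H \ J).card *
        ind (Q n ∧ ∀ c ∈ J, wE (EE X) (n + c) < j) := fun _ _ =>
      mul_nonneg (by positivity) (ind_nonneg _)
    have two : ∀ {g : ℤ → ℝ}, (∀ h ∈ H, Fb (zz X) (n + h) ≤ g h ∧ MM j A X (n + h) ≤ g h) →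
        |∏ h ∈ H, Fb (zz X) (n + h) - ∏ h ∈ H, MM j A X (n + h)| ≤ ∏ h ∈ H, g h := fun {g} hg => by
      have a1 := prod_nonneg fun h hh => (f h hh).2.1
      have a2 := prod_nonneg fun h hh => (m h hh).1
      have a3 := prod_le_prod (fun h hh => (f h hh).2.1) fun h hh => (hg h hh).1
      have a4 := prod_le_prod (fun h hh => (m h hh).1) fun h hh => (hg h hh).2
      exact abs_le.2 ⟨by linarith, by linarith⟩
    by_cases b : ∃ h ∈ H, (A + 5) * log (log X) < wE (EE X) (n + h)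
    · rw [ind_pos b, mul_one]
      refine le_add_of_nonneg_of_le (sum_nonneg s0) ((two (g := fun _ => log X ^ 3) fun h hh =>
        ⟨(f h hh).2.2.1.trans (R1.trans R3), (m h hh).2.1.trans R3⟩).trans ?_)
      rw [prod_const, hH]
    rw [ind_neg b, mul_zero, add_zero]
    have gd : ∀ h ∈ H, ¬ wE (EE X) (n + h) < j → MM j A X (n + h) = Fb (zz X) (n + h) :=
      fun h hh c => if_pos (mem_Icc.2 ⟨not_lt.1 c, Nat.le_floor (not_lt.1 fun d => b ⟨h, hh, d⟩)⟩)
    by_cases q : Q n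
    swap
    · simp only [Q, not_forall] at q
      obtain ⟨h, hh, q⟩ := q
      rw [prod_eq_zero hh ((f h hh).2.2.2 q), prod_eq_zero hh ((m h hh).2.2 q), sub_zero, abs_zero]
      exact sum_nonneg s0
    by_cases e : H.filter (fun h => wE (EE X) (n + h) < j) = ∅
    · rw [prod_congr rfl fun h hh => gd h hh (filter_eq_empty_iff.1 e hh), sub_self, abs_zero]
      exact sum_nonneg s0
    refine le_trans ?_ (single_le_sum s0 (mem_erase.2 ⟨e, mem_powerset.2 (filter_subset _ _)⟩))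
    rw [ind_pos ⟨q, fun c hc => (mem_filter.1 hc).2⟩, mul_one, ← filter_not, ← prod_const,
      ← prod_const, ← prod_ite]
    refine two fun h hh => ?_
    split_ifs with c
    · exact ⟨(f h hh).2.2.1.trans R1, (m h hh).2.1⟩
    · rw [gd h hh c]; exact ⟨(f h hh).2.2.1, (f h hh).2.2.1⟩
  rw [← sum_sub_distrib]
  refine ((abs_sum_le_sum_abs _ _).trans (sum_le_sum pt)).trans ?_
  rw [sum_add_distrib, sum_comm, ← mul_sum]
  have X0 : 0 ≤ (X : ℝ) / log X ^ A := by positivity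
  have P0 : 0 ≤ X * PH H (zz X) (alp A X) := mul_nonneg X.cast_nonneg (PH_nonneg _ _ _)
  have e0 : 0 ≤ et j X := by unfold et; positivity
  have b1 : ct X (fun n => ∃ h ∈ H, (A + 5) * log (log X) < wE (EE X) (n + h)) ≤
      k * (X / log X ^ A) := by
    refine (sum_le_sum fun n _ => ind_ex _ _).trans ?_
    rw [sum_comm, ← hH, ← nsmul_eq_mul]
    refine sum_le_card_nsmul _ _ _ fun h hh =>
      (ct_le_cu ?_ fun n => (A + 5) * log (log X) < wE (EE X) n).trans h2
    have := hX h hh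
    have := abs_nonneg h
    omega
  have b2 : ∑ J ∈ H.powerset.erase ∅, ∑ n ∈ Ioc (X : ℤ) (2 * X), R ^ J.card * r0 X ^ (H \ J).card *
      ind (Q n ∧ ∀ c ∈ J, wE (EE X) (n + c) < j) ≤ 2 ^ k * (et j X * r0 X ^ k *
      (X * PH H (zz X) (alp A X)) + 10 ^ (j * k) * ((log X ^ 3) ^ k * (X / log X ^ A))) := by
    refine (sum_le_card_nsmul _ _ (et j X * r0 X ^ k * (X * PH H (zz X) (alp A X)) +
      10 ^ (j * k) * ((log X ^ 3) ^ k * (X / log X ^ A))) fun J hJ => ?_).trans ?_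
    rotate_left
    · rw [nsmul_eq_mul]
      refine mul_le_mul_of_nonneg_right ?_ (by positivity)
      exact_mod_cast card_erase_le.trans (by rw [card_powerset, hH])
    obtain ⟨J0, J1⟩ := mem_erase.1 hJ
    rw [mem_powerset] at J1
    have c : J.card + (H \ J).card = k := by rw [add_comm, card_sdiff_add_card_eq_card J1, hH]
    rw [← mul_sum]
    refine (mul_le_mul_of_nonneg_left (h1 H J hH J1 fun p hp c hc c' hc' =>
      hd p hp c (J1 hc) c' (J1 hc')) (by positivity)).trans ?_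
    rw [mul_add, mul_add]
    refine add_le_add ?_ ?_
    · have : et j X ^ J.card ≤ et j X :=
        pow_le_of_le_one e0 h6 (card_ne_zero.2 (nonempty_iff_ne_empty.2 J0))
      calc _ = et j X ^ J.card * r0 X ^ k * (X * PH H (zz X) (alp A X)) := by
            rw [← c, hR, et, pow_mul]; simp only [mul_pow, pow_add]; ring
        _ ≤ _ := by gcongr
    · calc _ ≤ (log X ^ 3) ^ J.card * (log X ^ 3) ^ (H \ J).card *
            (10 ^ (j * k) * (X / log X ^ A)) := by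
            gcongr
            · exact R1.trans R3
            · norm_num
            · omega
        _ = _ := by rw [← pow_add, c]; ring
  refine (add_le_add b2 (mul_le_mul_of_nonneg_left b1 (by positivity))).trans (le_of_eq (by ring))

end Pool.Agent.Work.MP_678620_nt.TA
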