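import Pool.Agent.Work.MP_678620_nt.V.G
import Pool.Agent.Work.MP_678620_nt.U.B

/-! Tuples of sums of two squares: the asymptotic on dyadic blocks for good tuples. -/

set_option autoImplicit false
open Finset Filter Topology Real

namespace Pool.Agent.Work.MP_678620_nt.TA

open Classical

/-- tuples at which the weight may be replaced by its truncated model -/
def Good (k j A X : ℕ) (H : Finset ℤ) : Prop :=
  H.card = k ∧ (∀ h ∈ H, |(h : ℝ)| ≤ log X ^ A) ∧
    |∑ n ∈ Ioc (X : ℤ) (2 * X), ∏ h ∈ H, FF (zz X) (n + h) -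
      ∑ n ∈ Ioc (X : ℤ) (2 * X), ∏ h ∈ H, MM j A X (n + h)| ≤ X

lemma ev_sep (A : ℕ) : ∀ᶠ X : ℕ in atTop, ∀ H : Finset ℤ, (∀ h ∈ H, |(h : ℝ)| ≤ log X ^ A) →
    (∀ h ∈ H, 2 * |h| ≤ X) ∧ (∀ c ∈ H, ∀ c' ∈ H, |(c : ℝ) - c'| ≤ zz X) ∧
    ∀ p ∈ EE X, ∀ c ∈ H, ∀ c' ∈ H, (p : ℤ) ∣ c - c' → c = c' := by
  filter_upwards [ev_sz A, ev_sz (A + 1), tl.eventually_ge_atTop 3,
    ev_le (A + 1 : ℕ) 1 (show (0 : ℝ) < 1 / 100 by norm_num)] with X a b l3 c0 H hH
  have l0 : 0 < log X := by linarith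
  have p0 := pow_pos l0 A
  have d : ∀ c ∈ H, ∀ c' ∈ H, |(c : ℝ) - c'| ≤ 2 * log X ^ A := fun c hc c' hc' =>
    (abs_sub _ _).trans (by linarith [hH c hc, hH c' hc'])
  have e : 2 * log X ^ A < log X ^ (A + 1) := by rw [pow_succ]; nlinarith
  refine ⟨fun h hh => ?_, fun c hc c' hc' => (d c hc c' hc').trans (e.le.trans b.1),
    fun p hp c hc c' hc' => eq_of_dvd (d c hc c' hc') (e.trans_le ?_)⟩
  · have : 2 * |(h : ℝ)| ≤ X := by linarith [hH h hh, a.2]
    exact_mod_cast this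
  · rw [rpow_zero, mul_one, pow_one] at c0
    refine le_trans ?_ (Nat.ceil_le.1 (mem_Icc.1 (mem_filter.1 hp).1).1)
    rw [← exp_log (pow_pos l0 _), log_pow]
    exact exp_le_exp.2 c0

variable {δ : Finset ℤ → ℕ → ℝ}
  (hδ : ∀ (H : Finset ℤ) (p : ℕ), p.Prime → Tendsto (fun α => den H (p ^ α)) atTop (𝓝 (δ H p)))
include hδ

lemma kap {K : ℝ} (hK : Tendsto (fun X : ℕ => ct X S2 * √(log X) / X) atTop (𝓝 K)) :
    Tendsto (fun X : ℕ => r0 X * Dl δ {0} (zz X) / √(log X)) atTop (𝓝 K) := by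
  have a1 := @FF_iff {0} (by simp) K
  have a2 := @Fb_iff {0} (by simp) K
  simp only [card_singleton, pow_one, prod_singleton, add_zero, mem_singleton, forall_eq] at a1 a2
  refine (a2.1 ((a1.2 hK).congr_dist one_trans)).congr_dist (squeeze_zero'
    (.of_forall fun _ => dist_nonneg) ?_ (er_r0 (k := 1) (A := 4) le_rfl))
  filter_upwards [tl.eventually_ge_atTop 1] with X l1
  have := (PH_sub hδ {0} (zz X) ⌈10 * log (log X)⌉₊).trans (mul_le_mul_of_nonneg_left
    (two_pow_ge l1 4 (c := 10) (by norm_num)) (Nat.cast_nonneg _))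
  rw [card_singleton, Nat.cast_one, one_mul] at this
  have r := rho_nonneg (zz X) (3 * X)
  rw [Real.dist_eq, ← sub_div, ← mul_sub, abs_div, abs_mul, abs_of_nonneg (sqrt_nonneg _), pow_one,
    pow_one, abs_of_nonneg (show 0 ≤ r0 X from r)]
  exact div_le_div_of_nonneg_right (mul_le_mul_of_nonneg_left this r) (sqrt_nonneg _)

theorem chain {k A : ℕ} (j : ℕ) (k0 : k ≠ 0) (hA : 3 * k + 1 ≤ A) {K : ℝ}
    (hK : Tendsto (fun X : ℕ => ct X S2 * √(log X) / X) atTop (𝓝 K)) (g : Ultrafilter ℕ)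
    (hg : (g : Filter ℕ) ≤ atTop) (H : ℕ → Finset ℤ) (hH : ∀ᶠ X in g, Good k j A X (H X)) :
    (∀ᶠ X in g, 0 ≤ SK δ k (H X)) ∧ Tendsto (fun X : ℕ =>
      (ct X (fun n => ∀ h ∈ H X, S2 (n + h)) * √(log X) ^ k / X - K ^ k * SK δ k (H X)) *
        (1 + SK δ k (H X))⁻¹) g (𝓝 0) := by
  have sp := (hH.and ((ev_sep A).filter_mono hg)).mono fun X a => a.2 _ a.1.2.1
  obtain ⟨P, hP, hS⟩ := sing_V hδ k H (tz.mono_left hg)
    ((hH.and sp).mono fun X a => ⟨a.1.1, a.2.2.1⟩)
  have S0 : ∀ᶠ X in g, 0 ≤ SK δ k (H X) := by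
    filter_upwards [hS, hP.eventually (lt_mem_nhds one_pos)] with X a b
    rw [a]
    exact mul_nonneg (div_nonneg (Dl_nonneg hδ _ _) (pow_nonneg (Dl_nonneg hδ _ _) _)) b.le
  refine ⟨S0, ?_⟩
  set w : ℕ → ℝ := fun X => (1 + SK δ k (H X))⁻¹ with hw'
  have hw : ∀ᶠ X in (g : Filter ℕ), 0 ≤ w X ∧ w X ≤ 1 := S0.mono fun X a =>
    ⟨inv_nonneg.2 (by linarith), inv_le_one_of_one_le₀ (by linarith)⟩
  obtain ⟨y, -, hy⟩ := (isCompact_Icc (a := (0 : ℝ)) (b := 1)).ultrafilter_le_nhds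
    (g.map fun X => SK δ k (H X) * w X) (le_principal_iff.2 (by
      rw [Ultrafilter.coe_map, Filter.mem_map]
      filter_upwards [S0, hw] with X a b
      exact ⟨mul_nonneg a b.1, mul_inv_le_one_of_le₀ (by linarith) (by linarith)⟩))
  have ty : Tendsto (fun X => SK δ k (H X) * w X) g (𝓝 y) := hy
  have t1 : Tendsto (fun X => r0 X ^ k * Dl δ (H X) (zz X) / √(log X) ^ k * w X) g
      (𝓝 (K ^ k * y)) := by
    have := (((kap hδ hK).mono_left hg).pow k).mul (ty.div hP one_ne_zero)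
    rw [div_one] at this
    refine this.congr' ?_
    filter_upwards [hS, hP.eventually (lt_mem_nhds one_pos)] with X a b
    have := (Dl_pos hδ (zz X)).ne'
    have := b.ne'
    simp only [Pi.div_apply]
    generalize w X = u
    rw [a, div_pow, mul_pow]
    field_simp
  have er := (er_r0 hA).mono_left hg
  have l1 := (tl.eventually_ge_atTop 1).filter_mono hg
  have x0 := (eventually_gt_atTop 0).filter_mono hg
  have t2 := moveW hw t1 (g := fun X => r0 X ^ k * PH (H X) (zz X) (alp A X) / √(log X) ^ k)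
    (e := fun X => k * (r0 X ^ k * (1 / log X ^ A) / √(log X) ^ k)) (by
      filter_upwards [hH, l1] with X a l
      have := (PH_sub hδ (H X) (zz X) ⌈2 * (A + 1) * log (log X)⌉₊).trans
        (mul_le_mul_of_nonneg_left (two_pow_ge l A (by linarith [A.cast_nonneg (α := ℝ)]))
          (Nat.cast_nonneg _))
      have r : 0 ≤ r0 X ^ k := pow_nonneg (rho_nonneg _ _) _
      rw [a.1, abs_sub_comm] at this
      rw [← sub_div, ← mul_sub, abs_div, abs_mul, abs_of_nonneg r,
        abs_of_nonneg (by positivity : 0 ≤ √(log X) ^ k), ← mul_div_assoc, mul_left_comm]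
      exact div_le_div_of_nonneg_right (mul_le_mul_of_nonneg_left this r) (by positivity))
    (zero_wL hw (by simpa using er.const_mul (k : ℝ)))
  have t3 := moveW hw t2 (g := fun X => r0 X ^ k *
      ct X (fun n => ∀ h ∈ H X, AA (zz X) (alp A X) (n + h)) / (X * √(log X) ^ k))
    (e := fun X => r0 X ^ k * (1 / log X ^ A) / √(log X) ^ k) (by
      filter_upwards [hH, l1, x0, (box_asymV k A).filter_mono hg] with X a l h5 h2
      have X0 : (0 : ℝ) < X := by exact_mod_cast h5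
      have l0 : 0 < log X := by linarith
      have := h2 _ ∅ a.1 (empty_subset _) ∅ (by simp)
      simp only [notMem_empty, false_imp_iff, implies_true, and_true, prod_empty, mul_one] at this
      have r : 0 ≤ r0 X ^ k := pow_nonneg (rho_nonneg _ _) _
      rw [abs_sub_comm, show r0 X ^ k * ct X (fun n => ∀ h ∈ H X, AA (zz X) (alp A X) (n + h)) /
        (X * √(log X) ^ k) - r0 X ^ k * PH (H X) (zz X) (alp A X) / √(log X) ^ k =
        r0 X ^ k / (X * √(log X) ^ k) * (ct X (fun n => ∀ h ∈ H X, AA (zz X) (alp A X) (n + h))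
          - X * PH (H X) (zz X) (alp A X)) by field_simp, abs_mul, abs_of_nonneg (by positivity)]
      exact (mul_le_mul_of_nonneg_left this (by positivity)).trans (le_of_eq (by field_simp)))
    (zero_wL hw er)
  have t4 := (sandW hw (((Fb_ineq k A).filter_mono hg).mp ((hH.and sp).mono fun X a b =>
    b _ a.1.1 a.2.1)) (by simpa using (rho_tendsto.mono_left hg).pow k) tendsto_const_nhds
    (by simpa using er.const_mul (k : ℝ))).2 t3
  have e3 := (er_zero hA (f := fun X => log X ^ 3) ((tl.eventually_ge_atTop 0).mono fun X a =>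
    ⟨by positivity, le_rfl⟩)).mono_left hg
  have t5 := moveW hw t4 (g := fun X => (∑ n ∈ Ioc (X : ℤ) (2 * X), ∏ h ∈ H X, MM j A X (n + h)) /
      (X * √(log X) ^ k))
    (e := fun X => 2 ^ k * et j X * (r0 X ^ k * PH (H X) (zz X) (alp A X) / √(log X) ^ k) +
      (2 ^ k * 10 ^ (j * k) + k) * ((log X ^ 3) ^ k * (1 / log X ^ A))) (by
      filter_upwards [hH, sp, l1, x0, (MM_Fb k A j).filter_mono hg] with X a b l h5 h2
      have X0 : (0 : ℝ) < X := by exact_mod_cast h5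
      have l0 : 0 < log X := by linarith
      have s : 1 ≤ √(log X) ^ k := one_le_pow₀ (one_le_sqrt.2 l)
      rw [← sub_div, abs_div, abs_of_pos (by positivity : 0 < X * √(log X) ^ k),
        div_le_iff₀ (by positivity), add_mul]
      refine (h2 _ a.1 b.1 b.2.2).trans (add_le_add (le_of_eq (by field_simp)) ?_)
      calc _ = (2 ^ k * 10 ^ (j * k) + k) * ((log X ^ 3) ^ k * (1 / log X ^ A)) * (X * 1) := by ring
        _ ≤ _ := by gcongr)
    (by
      have := ((((et_zero j).mono_left hg).const_mul (2 ^ k)).mul t2).add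
        (zero_wL hw (by simpa using e3.const_mul (2 ^ k * 10 ^ (j * k) + k : ℝ)))
      simp only [mul_zero, zero_mul, add_zero] at this
      exact this.congr fun X => by ring)
  have t6 := moveW hw t5 (g := fun X => (∑ n ∈ Ioc (X : ℤ) (2 * X), ∏ h ∈ H X, FF (zz X) (n + h)) /
      (X * √(log X) ^ k)) (e := fun X => (√(log X) ^ k)⁻¹) (by
      filter_upwards [hH, l1, x0] with X a l h5
      have X0 : (0 : ℝ) < X := by exact_mod_cast h5
      have l0 : 0 < log X := by linarith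
      rw [← sub_div, abs_div, abs_of_pos (by positivity : 0 < X * √(log X) ^ k),
        div_le_iff₀ (by positivity), abs_sub_comm]
      exact a.2.2.trans (le_of_eq (by field_simp)))
    (zero_wL hw (((tendsto_pow_atTop k0).comp (tendsto_sqrt_atTop.comp tl)).inv_tendsto_atTop.mono_left
      hg))
  have t7 := (sandW hw (((FF_ineq k A).filter_mono hg).mp ((hH.and sp).mono fun X a b =>
    b _ a.1.1 a.2.1)) (by simpa using ((th_zero.mono_left hg).const_sub 1).pow k)
    (by simpa using (((tinv.mono_left hg).const_mul 2).const_add 1).pow k) (by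
      have := ((er_zero hA (f := fun X => √(log X)) ((tl.eventually_ge_atTop 1).mono fun X a =>
        ⟨sqrt_nonneg _, (sqrt_le_self_iff.2 (.inr a)).trans
          (le_self_pow₀ a (by norm_num))⟩)).mono_left hg).const_mul (k : ℝ)
      rw [mul_zero] at this
      exact this.congr fun X => by ring)).1 t6
  have := t7.sub (ty.const_mul (K ^ k))
  rw [sub_self] at this
  exact this.congr fun X => by ring

theorem block_V {k A : ℕ} (j : ℕ) (k0 : k ≠ 0) (hA : 3 * k + 1 ≤ A) {K : ℝ}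
    (hK : Tendsto (fun X : ℕ => ct X S2 * √(log X) / X) atTop (𝓝 K)) {ε : ℝ} (hε : 0 < ε) :
    ∀ᶠ X : ℕ in atTop, ∀ H, Good k j A X H → 0 ≤ SK δ k H ∧
      |ct X (fun n => ∀ h ∈ H, S2 (n + h)) * √(log X) ^ k / X - K ^ k * SK δ k H| ≤
        ε * (1 + SK δ k H) := by
  by_contra c
  rw [not_eventually] at c
  obtain ⟨g, hg, hb⟩ := exists_ultrafilter_iff.2 (frequently_iff_neBot.1 c) |>.imp fun g h =>
    le_inf_iff.1 h
  rw [le_principal_iff] at hb
  have : ∀ X : ℕ, ∃ H, (¬ ∀ H, Good k j A X H → 0 ≤ SK δ k H ∧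
      |ct X (fun n => ∀ h ∈ H, S2 (n + h)) * √(log X) ^ k / X - K ^ k * SK δ k H| ≤
        ε * (1 + SK δ k H)) → Good k j A X H ∧ ¬ (0 ≤ SK δ k H ∧
      |ct X (fun n => ∀ h ∈ H, S2 (n + h)) * √(log X) ^ k / X - K ^ k * SK δ k H| ≤
        ε * (1 + SK δ k H)) := fun X => by
    by_contra d
    push Not at d
    obtain ⟨⟨H, h1, h2⟩, -⟩ := d ∅
    obtain ⟨h3, h4⟩ := (d H).2 h1
    exact absurd h4 (not_le.2 (h2 h3))
  choose H hH using this
  have hb' : ∀ᶠ X in (g : Filter ℕ), _ := mem_of_superset hb fun X a => hH X a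
  obtain ⟨a, b⟩ := chain hδ j k0 hA hK g hg H (hb'.mono fun X a => a.1)
  obtain ⟨X, ⟨c1, c2⟩, c3⟩ := ((a.and (Metric.tendsto_nhds.1 b ε hε)).and hb').exists
  refine c3.2 ⟨c1, ?_⟩
  rw [dist_zero_right, norm_eq_abs, abs_mul, abs_of_pos (by positivity : 0 < (1 + SK δ k (H X))⁻¹),
    ← div_eq_mul_inv, div_lt_iff₀ (by positivity)] at c2
  exact c2.le

end Pool.Agent.Work.MP_678620_nt.TA
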