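import Pool.Agent.Work.MP_678620_nt.V.I

/-! Tuples of sums of two squares: initial intervals and the count of exceptional tuples. -/

set_option autoImplicit false
open Finset Filter Topology Real

namespace Pool.Agent.Work.MP_678620_nt.TA

open Classical

lemma halvV {T g : ℕ → ℝ} (hT : ∀ n, |T (n + 1) - T n| ≤ 1) (hT0 : ∀ n, |T n| ≤ n) {c c' ε : ℝ}
    (c0 : 0 ≤ c) (c1 : c ≤ c') (c2 : 1 ≤ c') (ε0 : 0 ≤ ε) {L : ℕ} (L0 : 0 < L) (g0 : ∀ N, 0 ≤ g N)
    (g1 : ∀ N, L ≤ N → g N ≤ N)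
    (h1 : ∀ N, L ≤ N → g (N / 2) ≤ 2 / 3 * g N ∧ |2 * g (N / 2) - g N| ≤ ε * g N ∧ 1 ≤ ε * g N)
    (N : ℕ) : L ≤ N → (∀ i, L ≤ N / 2 ^ (i + 1) → |T (2 * (N / 2 ^ (i + 1))) - T (N / 2 ^ (i + 1))
      - c * g (N / 2 ^ (i + 1))| ≤ ε * c' * g (N / 2 ^ (i + 1))) →
    |T N - c * g N| ≤ 9 * (ε * c' * g N) + 2 * L * (1 + c) := by
  induction N using Nat.strong_induction_on with
  | _ N ih =>
    intro hN h2
    have c3 : 0 ≤ c' := by linarith
    have p0 : 0 ≤ ε * c' * g N := by have := g0 N; positivity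
    rcases lt_or_ge N (2 * L) with a | a
    · have a' : (N : ℝ) ≤ 2 * L := by exact_mod_cast a.le
      have b1 := abs_sub (T N) (c * g N)
      rw [abs_of_nonneg (mul_nonneg c0 (g0 N))] at b1
      have := mul_le_mul_of_nonneg_left ((g1 N hN).trans a') c0
      linarith [hT0 N]
    obtain ⟨b1, b2, b3⟩ := h1 N hN
    have b4 := h2 0
    rw [zero_add, pow_one] at b4
    have b4 := abs_le.1 (b4 (by omega))
    have b5 := abs_le.1 (ih (N / 2) (by omega) (by omega) fun i => by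
      rw [Nat.div_div_eq_div_mul, ← pow_succ']; exact h2 (i + 1))
    have b6 : |T N - T (2 * (N / 2))| ≤ 1 := by
      obtain ⟨k, rfl | rfl⟩ := N.even_or_odd'
      · rw [Nat.mul_div_cancel_left _ two_pos]; simp
      · rw [show (2 * k + 1) / 2 = k by omega]; exact hT _
    have b7 := mul_le_mul_of_nonneg_left b1 (mul_nonneg ε0 c3)
    have b8 := mul_le_mul_of_nonneg_left (abs_le.1 b2).1 c0
    have b9 := mul_le_mul_of_nonneg_left (abs_le.1 b2).2 c0
    have b10 := mul_le_mul_of_nonneg_right c1 (mul_nonneg ε0 (g0 N))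
    have b11 := mul_le_mul_of_nonneg_right c2 (mul_nonneg ε0 (g0 N))
    rw [abs_le] at b6 ⊢
    constructor <;> linarith [b4.1, b4.2, b5.1, b5.2, b6.1, b6.2]

variable {δ : Finset ℤ → ℕ → ℝ}
  (hδ : ∀ (H : Finset ℤ) (p : ℕ), p.Prime → Tendsto (fun α => den H (p ^ α)) atTop (𝓝 (δ H p)))
include hδ

omit hδ in
theorem init_G {k : ℕ} {K : ℝ} (K0 : 0 < K)
    (hK : Tendsto (fun X : ℕ => TT S2 X / X * √(log X)) atTop (𝓝 K)) (Gd : ℕ → Finset ℤ → Prop)
    (hB : Tendsto (fun X : ℕ => ct X S2 * √(log X) / X) atTop (𝓝 K) → ∀ {ε : ℝ}, 0 < ε →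
      ∀ᶠ X : ℕ in atTop, ∀ H, Gd X H → 0 ≤ SK δ k H ∧
      |ct X (fun n => ∀ h ∈ H, S2 (n + h)) * √(log X) ^ k / X - K ^ k * SK δ k H| ≤
        ε * (1 + SK δ k H)) {ε : ℝ} (hε : 0 < ε) :
    ∀ᶠ x : ℝ in atTop, ∀ H : Finset ℤ,
      (∀ i, ⌈√x⌉₊ ≤ ⌊x⌋₊ / 2 ^ (i + 1) → Gd (⌊x⌋₊ / 2 ^ (i + 1)) H) →
      |TT (fun n => ∀ h ∈ H, S2 (n + h)) ⌊x⌋₊ / x - SK δ k H * (K / √(log x)) ^ k| ≤
        ε * ((1 + SK δ k H) * (K / √(log x)) ^ k) := by
  have pos : ∀ᶠ N : ℕ in atTop, 0 < log N ∧ (0 : ℝ) < N :=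
    (tl.eventually_gt_atTop 0).and (tnat.eventually_gt_atTop 0)
  have d2 : Tendsto (fun N : ℕ => 2 * N) atTop atTop := tendsto_id.const_mul_atTop' two_pos
  have r := (log_ratio (v := fun N : ℕ => ((2 * N : ℕ) : ℝ)) tnat (tendsto_const_nhds.congr'
    (pos.mono fun N a => by have := a.2; push_cast; field_simp)) two_pos).sqrt
  have k1 := (((hK.comp d2).mul r).const_mul 2).sub hK
  rw [sqrt_one, show 2 * (K * 1) - K = K by ring] at k1
  have κ0 : 0 < K ^ k := pow_pos K0 k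
  obtain ⟨η, η0, hη⟩ : ∃ η : ℝ, 0 < η ∧ 20 * η * (1 + K ^ k) = ε * K ^ k :=
    ⟨ε * K ^ k / (20 * (1 + K ^ k)), by positivity, by field_simp⟩
  have k2 := hB (k1.congr' (by
    filter_upwards [pos, d2.eventually pos] with N c d
    have := c.2
    have := sqrt_pos.2 d.1
    rw [← TT_ct, sqrt_div c.1.le]
    simp only [Function.comp]
    push_cast at *
    field_simp)) η0
  have r1 : Tendsto (fun N : ℕ => ((N / 2 : ℕ) : ℝ) / N) atTop (𝓝 (1 / 2)) := by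
    have := ((tendsto_nat_floor_div_atTop (R := ℝ)).comp (tnat.atTop_div_const two_pos)).div_const 2
    refine this.congr fun N => ?_
    rw [Function.comp, show (2 : ℝ) = (2 : ℕ) from rfl, Nat.floor_div_eq_div, div_div,
      div_mul_cancel₀ _ (by norm_num)]
  have r2 := r1.mul ((log_ratio tnat r1 one_half_pos).sqrt.pow k)
  rw [sqrt_one, one_pow] at r2
  have r3 : ∀ᶠ N : ℕ in atTop, η⁻¹ * log N ^ k ≤ N := ev_pw _ k
  obtain ⟨N₀, hN⟩ := eventually_atTop.1 ((k2.and (pos.and (tl.eventually_ge_atTop 2))).and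
    ((r2.eventually (eventually_le_nhds (show (1 / 2 * 1 : ℝ) < 2 / 3 by norm_num))).and
    ((Metric.tendsto_nhds.1 r2 (η / 2) (by positivity)).and r3)))
  have r4 := (tendsto_nat_floor_div_atTop (R := ℝ)).mul
    ((log_ratio tendsto_id (tendsto_nat_floor_div_atTop (R := ℝ)) one_pos).sqrt.pow k)
  rw [sqrt_one, one_pow] at r4
  filter_upwards [tendsto_sqrt_atTop.eventually_ge_atTop (N₀ : ℝ), eventually_ge_atTop 36,
    r4.eventually (eventually_le_nhds (show (1 * 1 : ℝ) < 2 by norm_num)),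
    Metric.tendsto_nhds.1 r4 η η0, (isLittleO_pow_log_id_atTop (n := k)).bound
      (show 0 < (η / 8) ^ 2 by positivity)] with x x1 x2 x3 x4 x5 H hH
  have x0 : 0 < x := by linarith
  have l0 : 0 < log x := log_pos (by linarith)
  have s0 : 6 ≤ √x := le_sqrt_of_sq_le (by linarith)
  have s1 : √x * √x = x := mul_self_sqrt x0.le
  have hL : ∀ N, ⌈√x⌉₊ ≤ N → N₀ ≤ N := fun N h => by exact_mod_cast x1.trans (Nat.ceil_le.1 h)
  have f0 : ⌈√x⌉₊ ≤ ⌊x⌋₊ / 2 ^ (0 + 1) := by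
    rw [zero_add, pow_one, Nat.le_div_iff_mul_le two_pos]
    refine Nat.le_floor ?_
    push_cast
    linarith [Nat.ceil_lt_add_one (sqrt_nonneg x), mul_le_mul_of_nonneg_right s0 (sqrt_nonneg x)]
  have S0 : 0 ≤ SK δ k H := ((hN _ (hL _ f0)).1.1 H (hH 0 f0)).1
  have c0 : 0 ≤ K ^ k * SK δ k H := by positivity
  have c1 : K ^ k * SK δ k H ≤ (1 + K ^ k) * (1 + SK δ k H) := by linarith
  have c2 : 1 ≤ (1 + K ^ k) * (1 + SK δ k H) := by linarith
  have sq1 : ∀ N, ⌈√x⌉₊ ≤ N → 1 ≤ √(log N) := fun N h =>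
    one_le_sqrt.2 (by linarith [(hN N (hL N h)).1.2.2])
  have key := halvV (T := TT fun n => ∀ h ∈ H, S2 (n + h)) (g := fun N => N / √(log N) ^ k)
    (TT_step _) (fun n => by
      rw [TT, abs_of_nonneg (sum_nonneg fun _ _ => ind_nonneg _)]
      exact (sum_le_card_nsmul _ _ 1 fun _ _ => ind_le _).trans (by simp))
    (c := K ^ k * SK δ k H) (c' := (1 + K ^ k) * (1 + SK δ k H)) c0 c1 c2
    η0.le (L := ⌈√x⌉₊) (Nat.ceil_pos.2 (by linarith)) (fun N => by positivity)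
    (fun N h => div_le_self N.cast_nonneg (one_le_pow₀ (sq1 N h)))
    (fun N h => by
      obtain ⟨⟨-, ⟨n1, n2⟩, n0⟩, n3, n4, n5⟩ := hN N (hL N h)
      have := sq1 N h
      have e : ((N / 2 : ℕ) : ℝ) / √(log (N / 2 : ℕ)) ^ k = ((N / 2 : ℕ) : ℝ) / N *
          √(log N / log (N / 2 : ℕ)) ^ k * (N / √(log N) ^ k) := by
        rw [sqrt_div n1.le, div_pow]; field_simp
      have g0 : 0 < (N : ℝ) / √(log N) ^ k := by positivity
      rw [Real.dist_eq, abs_lt] at n4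
      rw [e]
      refine ⟨mul_le_mul_of_nonneg_right n3 g0.le, abs_le.2 ⟨by
        linarith [mul_le_mul_of_nonneg_right n4.1.le g0.le], by
        linarith [mul_le_mul_of_nonneg_right n4.2.le g0.le]⟩,
        ?_⟩
      rw [← mul_div_assoc, one_le_div (by positivity), ← inv_mul_le_iff₀ η0]
      refine le_trans ?_ n5
      gcongr
      exact sqrt_le_self_iff.2 (.inr (by linarith)))
    ⌊x⌋₊ (f0.trans (Nat.div_le_self _ _)) (fun i h => by
      have a := hH i h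
      generalize ⌊x⌋₊ / 2 ^ (i + 1) = N at a h
      obtain ⟨⟨n0, ⟨n1, n2⟩, n3⟩, -⟩ := hN N (hL N h)
      have := sq1 N h
      have g0 : 0 ≤ (N : ℝ) / √(log N) ^ k := by positivity
      have := mul_le_mul_of_nonneg_right (n0 H a).2 g0
      rw [← abs_of_nonneg g0, ← abs_mul, abs_of_nonneg g0] at this
      rw [TT_ct]
      refine le_trans (le_of_eq ?_) (this.trans ?_)
      · congr 1
        field_simp
      · gcongr
        linarith)
  have q0 : 0 < √(log x) := sqrt_pos.2 l0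
  have G0 : 0 < x / √(log x) ^ k := by positivity
  have e : (⌊x⌋₊ : ℝ) / √(log ⌊x⌋₊) ^ k =
      ⌊x⌋₊ / x * √(log x / log ⌊x⌋₊) ^ k * (x / √(log x) ^ k) := by
    rw [sqrt_div l0.le, div_pow]; field_simp
  simp only [id] at x3 x4 x5
  rw [Real.dist_eq, abs_lt] at x4
  rw [e] at key
  have e2 : 4 * (⌈√x⌉₊ : ℝ) ≤ η * (x / √(log x) ^ k) := by
    rw [norm_of_nonneg (by positivity), norm_of_nonneg x0.le] at x5
    have f1 : (⌈√x⌉₊ : ℝ) ≤ 2 * √x := by linarith [Nat.ceil_lt_add_one (sqrt_nonneg x)]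
    have f2 : √(log x) ^ k ≤ η / 8 * √x := le_of_sq_le_sq (by
      rwa [← pow_mul, mul_comm k, pow_mul, sq_sqrt l0.le, mul_pow, sq_sqrt x0.le]) (by positivity)
    rw [← mul_div_assoc, le_div_iff₀ (by positivity)]
    calc _ ≤ 4 * (2 * √x) * (η / 8 * √x) := by gcongr
      _ = η * (√x * √x) := by ring
      _ = _ := by rw [s1]
  rw [show SK δ k H * (K / √(log x)) ^ k = K ^ k * SK δ k H * (x / √(log x) ^ k) / x by
      rw [div_pow]; field_simp,
    show ε * ((1 + SK δ k H) * (K / √(log x)) ^ k) =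
      20 * η * ((1 + K ^ k) * (1 + SK δ k H)) * (x / √(log x) ^ k) / x by
      rw [← mul_assoc (20 * η), hη, div_pow]; field_simp,
    ← sub_div, abs_div, abs_of_pos x0, div_le_div_iff_of_pos_right x0]
  generalize (1 + K ^ k) * (1 + SK δ k H) = c' at *
  generalize K ^ k * SK δ k H = c at *
  generalize x / √(log x) ^ k = G at *
  generalize (⌊x⌋₊ : ℝ) / x * √(log x / log ⌊x⌋₊) ^ k = ρ at *
  have L0 := (⌈√x⌉₊).cast_nonneg (α := ℝ)
  generalize (⌈√x⌉₊ : ℝ) = L at *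
  have m0 : 0 ≤ c * G := mul_nonneg c0 G0.le
  have m1 := mul_le_mul_of_nonneg_right x3 (show 0 ≤ η * c' * G by positivity)
  have m2 := mul_le_mul_of_nonneg_right x4.1.le m0
  have m3 := mul_le_mul_of_nonneg_right x4.2.le m0
  have m4 := mul_le_mul_of_nonneg_right c1 (show 0 ≤ η * G by positivity)
  have m5 := mul_le_mul_of_nonneg_right e2 (show 0 ≤ c' by linarith)
  have m6 := mul_le_mul_of_nonneg_left (show 1 + c ≤ 2 * c' by linarith) L0
  rw [abs_le] at key ⊢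
  constructor <;> linarith [key.1, key.2]

theorem init_V {k A : ℕ} (j : ℕ) (k0 : k ≠ 0) (hA : 3 * k + 1 ≤ A) {K : ℝ} (K0 : 0 < K)
    (hK : Tendsto (fun X : ℕ => TT S2 X / X * √(log X)) atTop (𝓝 K)) {ε : ℝ} (hε : 0 < ε) :
    ∀ᶠ x : ℝ in atTop, ∀ H : Finset ℤ,
      (∀ i, ⌈√x⌉₊ ≤ ⌊x⌋₊ / 2 ^ (i + 1) → Good k j A (⌊x⌋₊ / 2 ^ (i + 1)) H) →
      |TT (fun n => ∀ h ∈ H, S2 (n + h)) ⌊x⌋₊ / x - SK δ k H * (K / √(log x)) ^ k| ≤
        ε * ((1 + SK δ k H) * (K / √(log x)) ^ k) :=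
  init_G K0 hK (Good k j A) (fun h _ e => block_V hδ j k0 hA h e) hε

theorem typical {k : ℕ} (k0 : k ≠ 0) (C A : ℕ) {K : ℝ} (K0 : 0 < K)
    (hK : Tendsto (fun X : ℕ => TT S2 X / X * √(log X)) atTop (𝓝 K)) {ε : ℝ} (hε : 0 < ε) :
    ∀ᶠ x : ℝ in atTop, ∀ L : ℕ, log x ^ (6 * k + 2 * C + 13) ≤ L → L ≤ log x ^ A →
      (({H : Finset ℤ | H ⊆ Icc (1 : ℤ) L ∧ H.card = k ∧
        ε * ((1 + SK δ k H) * (K / √(log x)) ^ k) <
          |TT (fun n => ∀ h ∈ H, S2 (n + h)) ⌊x⌋₊ / x - SK δ k H * (K / √(log x)) ^ k|}.ncard : ℕ)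
        : ℝ) ≤ L ^ k / log x ^ C := by
  obtain ⟨j, hj⟩ := avg_bad k (C + 2) (2 * A + 6 * k + 2 * C + 5) (by omega)
  obtain ⟨N₀, hN⟩ := eventually_atTop.1 (hj.and (tl.eventually_ge_atTop 2))
  filter_upwards [init_V hδ j k0 (A := 2 * A + 6 * k + 2 * C + 5) (by omega) K0 hK hε,
    tendsto_sqrt_atTop.eventually_ge_atTop (N₀ : ℝ), eventually_gt_atTop 1,
    tendsto_log_atTop.eventually_ge_atTop (2 ^ (C + 3))] with x h1 x1 x2 x3 L L1 L2
  have x0 : 0 < x := by linarith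
  have l0 : 0 < log x := log_pos x2
  have s0 : 0 < √x := sqrt_pos.2 x0
  have sc : ∀ i, ⌈√x⌉₊ ≤ ⌊x⌋₊ / 2 ^ (i + 1) → N₀ ≤ ⌊x⌋₊ / 2 ^ (i + 1) ∧
      log x ≤ 2 * log (⌊x⌋₊ / 2 ^ (i + 1) : ℕ) ∧ log (⌊x⌋₊ / 2 ^ (i + 1) : ℕ) ≤ log x ∧
      (L : ℝ) ≤ log (⌊x⌋₊ / 2 ^ (i + 1) : ℕ) ^ (2 * A + 6 * k + 2 * C + 5) := fun i h => by
    have a : ((⌊x⌋₊ / 2 ^ (i + 1) : ℕ) : ℝ) ≤ x :=
      le_trans (by exact_mod_cast Nat.div_le_self _ _) (Nat.floor_le x0.le)
    generalize ⌊x⌋₊ / 2 ^ (i + 1) = N at a h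
    have b := Nat.ceil_le.1 h
    have c : N₀ ≤ N := by exact_mod_cast x1.trans b
    have d := log_le_log s0 b
    have e := (hN N c).2
    rw [log_sqrt x0.le] at d
    refine ⟨c, by linarith, log_le_log (by linarith) a, L2.trans (le_trans ?_
      (pow_le_pow_right₀ (by linarith) (show 2 * A ≤ _ by omega)))⟩
    rw [pow_mul]
    exact pow_le_pow_left₀ l0.le (by
      linarith [mul_le_mul_of_nonneg_right e (show 0 ≤ log (N : ℝ) by linarith), sq (log (N : ℝ))]) A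
  let bd : ℕ → Finset (Fin k → ℤ) := fun X =>
    (Fintype.piFinset fun _ : Fin k => Icc (1 : ℤ) L).filter fun h => (X : ℝ) <
      |∑ n ∈ Ioc (X : ℤ) (2 * X), (∏ i, FF (zz X) (n + h i) -
        ∏ i, MM j (2 * A + 6 * k + 2 * C + 5) X (n + h i))|
  let I := (range ⌊2 * log x⌋₊).filter fun i => ⌈√x⌉₊ ≤ ⌊x⌋₊ / 2 ^ (i + 1)
  refine le_trans (b := (((I.biUnion fun i => bd (⌊x⌋₊ / 2 ^ (i + 1))).image
    fun h => univ.image h).card : ℝ)) ?_ ?_
  · rw [Nat.cast_le, ← Set.ncard_coe_finset]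
    refine Set.ncard_le_ncard (fun H hH => ?_) (finite_toSet _)
    obtain ⟨a, b, c⟩ := hH
    by_contra d
    refine absurd c (not_lt.2 (h1 H fun i hi => ⟨b, fun h hh => ?_, ?_⟩))
    · have := mem_Icc.1 (a hh)
      rw [abs_of_nonneg (by exact_mod_cast (by omega : 0 ≤ h))]
      exact le_trans (by exact_mod_cast this.2) (sc i hi).2.2.2
    · have e := image_orderEmbOfFin_univ H b
      have inj : Set.InjOn (H.orderEmbOfFin b) (univ : Finset (Fin k)) :=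
        (H.orderEmbOfFin b).injective.injOn
      by_contra f
      refine d (mem_coe.2 (mem_image.2 ⟨H.orderEmbOfFin b, mem_biUnion.2 ⟨i, mem_filter.2
        ⟨mem_range.2 (Nat.lt_of_succ_le (Nat.le_floor ?_)), hi⟩, mem_filter.2
        ⟨Fintype.mem_piFinset.2 fun t => a (orderEmbOfFin_mem H b t), ?_⟩⟩, e⟩))
      · have g : 2 ^ (i + 1) ≤ ⌊x⌋₊ := by
          have := (Nat.ceil_pos.2 s0).trans_le hi
          exact (Nat.div_pos_iff.1 this).2
        have := log_le_log (by positivity) ((Nat.le_floor_iff x0.le).1 g)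
        rw [Nat.cast_pow, log_pow] at this
        have := (i + 1).cast_nonneg (α := ℝ)
        push_cast at *
        linarith [mul_le_mul_of_nonneg_left log_two_gt_d9.le this]
      · rw [sum_sub_distrib]
        rw [← e] at f
        simp only [prod_image inj] at f
        exact not_le.1 f
  · refine le_trans (b := ∑ i ∈ I, ((bd (⌊x⌋₊ / 2 ^ (i + 1))).card : ℝ))
      (by exact_mod_cast card_image_le.trans card_biUnion_le) ?_
    refine (sum_le_card_nsmul _ _ ((L : ℝ) ^ k / (log x / 2) ^ (C + 2)) fun i hi => ?_).trans ?_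
    · obtain ⟨a, b, c, d⟩ := sc i (mem_filter.1 hi).2
      have e := hN _ a
      refine (e.1 L (le_trans ?_ L1) d).trans ?_
      · exact pow_le_pow_left₀ (by linarith [e.2]) c _
      · gcongr
        linarith
    · have : (I.card : ℝ) ≤ 2 * log x := le_trans (by
        exact_mod_cast (card_filter_le _ _).trans (card_range _).le) (Nat.floor_le (by positivity))
      rw [nsmul_eq_mul]
      calc _ ≤ 2 * log x * ((L : ℝ) ^ k / (log x / 2) ^ (C + 2)) := by gcongr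
        _ = L ^ k / log x ^ C * (2 ^ (C + 3) / log x) := by rw [div_pow]; field_simp; ring
        _ ≤ _ := mul_le_of_le_one_right (by positivity) ((div_le_one l0).2 x3)

end Pool.Agent.Work.MP_678620_nt.TA
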